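import Pool.Agent.Work.MP_b51559_nt.BG.D.StmtsM

set_option autoImplicit false

namespace MPb51559.BG.D

open MeasureTheory

theorem prf_Cel (hIdx : StIdx) : StCel := by
  intro κ n0 hn0 n
  have h0 : (0 : ℝ) < n0 := by exact_mod_cast hn0
  refine ⟨?_, ?_, ?_⟩
  · exact MeasurableSet.univ_pi fun i => measurableSet_Ioc
  · unfold cell
    rw [Real.volume_pi_Ioc]
    have h1 : ∀ i : Fin κ, ENNReal.ofReal (((n i : ℝ) + 1) / n0 - (n i : ℝ) / n0) =
        ENNReal.ofReal (1 / (n0 : ℝ)) := by
      intro i
      congr 1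
      ring
    rw [Finset.prod_congr rfl fun i _ => h1 i, Finset.prod_const, Finset.card_univ,
      Fintype.card_fin, ENNReal.ofReal_pow (by positivity)]
  · intro t
    unfold cell
    rw [Set.mem_univ_pi, funext_iff, ← forall_and]
    exact forall_congr' fun i => (hIdx n0 hn0 (t i) (n i)).symm

end MPb51559.BG.D
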