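import Pool.Agent.Work.MP_b51559_nt.BG.D.StmtsM

set_option autoImplicit false

namespace MPb51559.BG.D

open MeasureTheory

theorem prf_Chg : StChg := by
  intro κ n0 hn0 n h
  have h0 : (0 : ℝ) < n0 := by exact_mod_cast hn0
  have hc : (0 : ℝ) < 1 / (n0 : ℝ) := by positivity
  have hmC : MeasurableSet (cell n0 n) := MeasurableSet.univ_pi fun i => measurableSet_Ioc
  have hmU : MeasurableSet (cube κ) := MeasurableSet.univ_pi fun i => measurableSet_Ioc
  set f : (Fin κ → ℝ) → ℝ := (cell n0 n).indicator (fun t => h (∑ i, t i)) with hf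
  rw [← integral_indicator hmC, ← integral_indicator hmU]
  have h1 : ∀ U : Fin κ → ℝ, (cube κ).indicator
      (fun U : Fin κ → ℝ => h ((((∑ i, n i : ℕ) : ℝ) + ∑ i, U i) / n0)) U =
      f ((1 / (n0 : ℝ)) • (U + fun i => (n i : ℝ))) := by
    intro U
    have h2 : ((1 / (n0 : ℝ)) • (U + fun i => (n i : ℝ)) ∈ cell n0 n) ↔ U ∈ cube κ := by
      unfold cell cube
      rw [Set.mem_univ_pi, Set.mem_univ_pi]
      refine forall_congr' fun i => ?_
      simp only [Pi.smul_apply, Pi.add_apply, smul_eq_mul, Set.mem_Ioc]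
      rw [one_div, ← div_eq_inv_mul, div_lt_div_iff_of_pos_right h0, div_le_div_iff_of_pos_right h0]
      constructor
      · rintro ⟨a, b⟩
        exact ⟨by linarith, by linarith⟩
      · rintro ⟨a, b⟩
        exact ⟨by linarith, by linarith⟩
    by_cases hU : U ∈ cube κ
    · rw [hf, Set.indicator_of_mem hU, Set.indicator_of_mem (h2.2 hU)]
      congr 1
      simp only [Pi.smul_apply, Pi.add_apply, smul_eq_mul]
      rw [← Finset.mul_sum, Finset.sum_add_distrib]
      push_cast
      ring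
    · rw [hf, Set.indicator_of_notMem hU, Set.indicator_of_notMem (fun h3 => hU (h2.1 h3))]
  rw [integral_congr_ae (Filter.Eventually.of_forall h1)]
  have h3 : ∫ U : Fin κ → ℝ, f ((1 / (n0 : ℝ)) • (U + fun i => (n i : ℝ))) =
      ∫ U : Fin κ → ℝ, f ((1 / (n0 : ℝ)) • U) :=
    integral_add_right_eq_self (μ := volume) (fun x : Fin κ → ℝ => f ((1 / (n0 : ℝ)) • x))
      (fun i => (n i : ℝ))
  rw [h3, Measure.integral_comp_smul volume f (1 / (n0 : ℝ)), Module.finrank_fin_fun, smul_eq_mul,
    abs_of_pos (by positivity), ← mul_assoc, mul_inv_cancel₀ (by positivity), one_mul]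

end MPb51559.BG.D
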