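import Pool.Agent.Work.MP_b51559_nt.BG.D.StmtsM

set_option autoImplicit false

/-! # Block BG, part D: sums over tuples are coefficients of powers -/

namespace MPb51559.BG.D

open Finset Polynomial

theorem Cmb_coeff (k M : ℕ) (q : ℕ → ℤ) (N : ℕ) :
    ((∑ j ∈ range M, C (q j) * X ^ j : ℤ[X]) ^ k).coeff N =
      ∑ n ∈ Fintype.piFinset (fun _ : Fin k => range M),
        if N = ∑ i, n i then ∏ i, q (n i) else 0 := by
  classical
  have h1 : (∑ j ∈ range M, C (q j) * X ^ j : ℤ[X]) ^ k =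
      ∏ _i : Fin k, ∑ j ∈ range M, (C (q j) * X ^ j : ℤ[X]) := by
    rw [Finset.prod_const, Finset.card_univ, Fintype.card_fin]
  rw [h1, Finset.prod_univ_sum, Polynomial.finsetSum_coeff]
  refine Finset.sum_congr rfl (fun n _ => ?_)
  rw [Finset.prod_mul_distrib, Finset.prod_pow_eq_pow_sum, ← map_prod, coeff_C_mul_X_pow]

theorem prf_Cmb : StCmb := by
  classical
  intro k M M' w q hw
  have h1 : ∀ N ∈ range M', w N * ((∑ j ∈ range M, C (q j) * X ^ j : ℤ[X]) ^ k).coeff N =
      ∑ n ∈ Fintype.piFinset (fun _ : Fin k => range M),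
        if N = ∑ i, n i then w N * ∏ i, q (n i) else 0 := by
    intro N _
    rw [Cmb_coeff, Finset.mul_sum]
    refine Finset.sum_congr rfl (fun n _ => ?_)
    rw [mul_ite, mul_zero]
  rw [Finset.sum_congr rfl h1, Finset.sum_comm]
  refine Finset.sum_congr rfl (fun n _ => ?_)
  rw [Finset.sum_ite_eq']
  by_cases hm : ∑ i, n i ∈ range M'
  · rw [if_pos hm]
  · rw [if_neg hm, hw _ (not_lt.1 (fun hc => hm (Finset.mem_range.2 hc))), zero_mul]

end MPb51559.BG.D
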