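import Pool.Agent.Work.MP_b51559_nt.BG.D.StmtsM

set_option autoImplicit false

/-!
# Item EulF: the Irwin Hall formula at integers gives the Eulerian numbers
-/

namespace MPb51559.BG.D

open Finset

theorem EulF_trunc (κ v : ℕ) (hκ : 1 ≤ κ) (hv : v ≤ κ) :
    ∑ j ∈ range (κ + 1), (-1 : ℝ) ^ j * (κ.choose j : ℝ) * (max ((v : ℝ) - j) 0) ^ κ =
      ∑ j ∈ range v, (-1 : ℝ) ^ j * (κ.choose j : ℝ) * ((v : ℝ) - j) ^ κ := by
  have h1 : ∑ j ∈ range (κ + 1), (-1 : ℝ) ^ j * (κ.choose j : ℝ) * (max ((v : ℝ) - j) 0) ^ κ =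
      ∑ j ∈ range v, (-1 : ℝ) ^ j * (κ.choose j : ℝ) * (max ((v : ℝ) - j) 0) ^ κ := by
    symm
    refine sum_subset (range_subset_range.2 (by omega)) fun j _ hj => ?_
    rw [mem_range, not_lt] at hj
    have h2 : (v : ℝ) - j ≤ 0 := by
      have : (v : ℝ) ≤ j := by exact_mod_cast hj
      linarith
    rw [max_eq_right h2, zero_pow (by omega), mul_zero]
  rw [h1]
  refine sum_congr rfl fun j hj => ?_
  rw [mem_range] at hj
  have h2 : 0 ≤ (v : ℝ) - j := by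
    have : (j : ℝ) ≤ v := by exact_mod_cast hj.le
    linarith
  rw [max_eq_left h2]

theorem prf_EulF : StEulF := by
  intro κ u hκ hu
  have h1 := EulF_trunc κ (u + 1) hκ (by omega)
  have h2 := EulF_trunc κ u hκ hu.le
  push_cast at h1
  rw [h1, h2]
  unfold eul
  push_cast
  rw [sum_range_succ' _ u, sum_range_succ' _ u]
  simp only [pow_zero, Nat.choose_zero_right, Nat.cast_one, mul_one, one_mul, Nat.cast_zero, sub_zero]
  have h3 : ∑ j ∈ range u, (-1 : ℝ) ^ (j + 1) * ((κ + 1).choose (j + 1) : ℝ) *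
      ((u : ℝ) + 1 - ((j + 1 : ℕ) : ℝ)) ^ κ =
      ∑ j ∈ range u, (-1 : ℝ) ^ (j + 1) * (κ.choose (j + 1) : ℝ) *
        ((u : ℝ) + 1 - ((j + 1 : ℕ) : ℝ)) ^ κ -
      ∑ j ∈ range u, (-1 : ℝ) ^ j * (κ.choose j : ℝ) * ((u : ℝ) - j) ^ κ := by
    rw [← sum_sub_distrib]
    refine sum_congr rfl fun j _ => ?_
    rw [Nat.choose_succ_succ]
    push_cast
    have e : (u : ℝ) + 1 - ((j : ℝ) + 1) = u - j := by ring
    rw [e, pow_succ]
    ring
  rw [h3]
  ring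

end MPb51559.BG.D
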