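import Pool.Agent.Work.MP_b51559_nt.BG.D.StmtsN

set_option autoImplicit false

namespace MPb51559.BG.D

open Finset MeasureTheory

theorem prf_I2 : StI2 := by
  intro h1 h2 h3 h4 Z hn0 k
  have h5 : (fun t => Z.F k t ^ 2) = stp Z.n0 (fun n : Fin k → ℕ => ((Z.f n : ℤ) : ℝ) ^ 2) := by
    funext t
    unfold Dat.F stp
    split_ifs
    · rfl
    · simp
  have h6 : ∀ n : Fin k → ℕ, n ∉ Fintype.piFinset (fun _ : Fin k => range (Z.J + 1)) →
      ((Z.f n : ℤ) : ℝ) ^ 2 = 0 := by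
    intro n hn
    rw [(h2 Z k).2.1 n hn]
    simp
  rw [h5, (h1 k Z.n0 (Z.J + 1) hn0 _ h6).2.2.2, ← h3 h4 Z k]
  push_cast
  rfl

end MPb51559.BG.D
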