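import Pool.Agent.Work.MP_b51559_nt.BG.D.StmtsM

set_option autoImplicit false

namespace MPb51559.BG.D

open MeasureTheory

theorem IH1_cdf0 (z : ℝ) : cdf 0 z = if 0 ≤ z then (1 : ℝ) else 0 := by
  unfold cdf
  have h1 : ∀ U : Fin 0 → ℝ, (if ∑ i, U i ≤ z then (1 : ℝ) else 0) = if 0 ≤ z then (1 : ℝ) else 0 := by
    intro U
    rw [Finset.univ_eq_empty, Finset.sum_empty]
  rw [integral_congr_ae (Filter.Eventually.of_forall h1), setIntegral_const]
  have h2 : (volume : Measure (Fin 0 → ℝ)).real (cube 0) = 1 := by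
    unfold cube Measure.real
    rw [Real.volume_pi_Ioc, Finset.univ_eq_empty, Finset.prod_empty, ENNReal.toReal_one]
  rw [h2, one_smul]

theorem prf_IH1 : StIH1 := by
  intro h y
  rw [h 0 y, intervalIntegral.integral_of_le zero_le_one]
  have h1 : ∀ u : ℝ, cdf 0 (y - u) = (Set.Iic y).indicator (fun _ => (1 : ℝ)) u := by
    intro u
    rw [IH1_cdf0]
    by_cases hu : u ≤ y
    · rw [if_pos (by linarith), Set.indicator_of_mem (Set.mem_Iic.2 hu)]
    · rw [if_neg (by linarith), Set.indicator_of_notMem (fun h2 => hu (Set.mem_Iic.1 h2))]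
  rw [integral_congr_ae (Filter.Eventually.of_forall h1), setIntegral_indicator measurableSet_Iic,
    setIntegral_const, Set.Ioc_inter_Iic, Real.volume_real_Ioc, smul_eq_mul, mul_one, sub_zero]
  rcases le_total y 0 with hy | hy
  · rw [min_eq_right (by linarith), max_eq_right hy, max_eq_right (by linarith), sub_zero]
  · rcases le_total y 1 with hy1 | hy1
    · rw [min_eq_right hy1, max_eq_left hy, max_eq_right (by linarith), sub_zero]
    · rw [min_eq_left hy1, max_eq_left hy, max_eq_left (by linarith), max_eq_left (by linarith)]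
      ring

end MPb51559.BG.D
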