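import Pool.Agent.Work.MP_b51559_nt.BG.D.StmtsM

set_option autoImplicit false

/-!
# Block BG, part D, item IHF: the formula of Irwin and Hall
-/

namespace MPb51559.BG.D

open Finset MeasureTheory Polynomial

theorem IHF_comb (n : ℕ) (A : ℕ → ℝ) :
    ∑ j ∈ range (n + 1), (-1) ^ j * (n.choose j : ℝ) * (A j - A (j + 1)) =
      ∑ j ∈ range (n + 2), (-1) ^ j * ((n + 1).choose j : ℝ) * A j := by
  have e1 : ∑ j ∈ range (n + 2), (-1) ^ j * ((n + 1).choose j : ℝ) * A j =
      (∑ j ∈ range (n + 1), (-1) ^ (j + 1) * ((n + 1).choose (j + 1) : ℝ) * A (j + 1)) + A 0 := by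
    rw [Finset.sum_range_succ']
    simp
  have e2 : ∑ j ∈ range (n + 2), (-1) ^ j * (n.choose j : ℝ) * A j =
      (∑ j ∈ range (n + 1), (-1) ^ (j + 1) * (n.choose (j + 1) : ℝ) * A (j + 1)) + A 0 := by
    rw [Finset.sum_range_succ']
    simp
  have e3 : ∑ j ∈ range (n + 2), (-1) ^ j * (n.choose j : ℝ) * A j =
      ∑ j ∈ range (n + 1), (-1) ^ j * (n.choose j : ℝ) * A j := by
    rw [Finset.sum_range_succ]
    simp
  have e4 : ∑ j ∈ range (n + 1), (-1) ^ (j + 1) * ((n + 1).choose (j + 1) : ℝ) * A (j + 1) =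
      (∑ j ∈ range (n + 1), (-1) ^ (j + 1) * (n.choose (j + 1) : ℝ) * A (j + 1)) -
        ∑ j ∈ range (n + 1), (-1) ^ j * (n.choose j : ℝ) * A (j + 1) := by
    rw [← Finset.sum_sub_distrib]
    refine Finset.sum_congr rfl fun j _ => ?_
    rw [Nat.choose_succ_succ]
    push_cast
    ring
  have e5 : ∑ j ∈ range (n + 1), (-1) ^ j * (n.choose j : ℝ) * (A j - A (j + 1)) =
      (∑ j ∈ range (n + 1), (-1) ^ j * (n.choose j : ℝ) * A j) -
        ∑ j ∈ range (n + 1), (-1) ^ j * (n.choose j : ℝ) * A (j + 1) := by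
    rw [← Finset.sum_sub_distrib]
    refine Finset.sum_congr rfl fun j _ => ?_
    ring
  rw [e5, ← e3, e2, e1, e4]
  ring

theorem prf_IHF : StIHF := by
  intro h0 h1 h2 κ hκ
  induction κ, hκ using Nat.le_induction with
  | base =>
    intro y
    rw [h1 h0 y]
    simp [Finset.sum_range_succ]
    ring
  | succ n hn ih =>
    intro y
    rw [h0 n y]
    have e1 : ∀ u : ℝ, cdf n (y - u) = (1 / (n.factorial : ℝ)) *
        ∑ j ∈ range (n + 1), (-1) ^ j * (n.choose j : ℝ) * (max ((y - j) - u) 0) ^ n := by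
      intro u
      rw [ih (y - u)]
      congr 1
      refine Finset.sum_congr rfl fun j _ => ?_
      rw [show y - u - (j : ℝ) = y - j - u by ring]
    simp_rw [e1]
    rw [intervalIntegral.integral_const_mul, intervalIntegral.integral_finsetSum]
    swap
    · intro j _
      refine Continuous.intervalIntegrable ?_ _ _
      fun_prop
    have e2 : ∀ j ∈ range (n + 1), (∫ u in (0 : ℝ)..1,
        (-1) ^ j * (n.choose j : ℝ) * (max ((y - j) - u) 0) ^ n) =
        1 / ((n : ℝ) + 1) * ((-1) ^ j * (n.choose j : ℝ) *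
          ((fun i : ℕ => (max (y - i) 0) ^ (n + 1)) j -
            (fun i : ℕ => (max (y - i) 0) ^ (n + 1)) (j + 1))) := by
      intro j _
      rw [intervalIntegral.integral_const_mul, h2 n hn (y - j)]
      simp only
      push_cast
      rw [show y - (j : ℝ) - 1 = y - (j + 1) by ring]
      ring
    rw [Finset.sum_congr rfl e2, ← Finset.mul_sum, IHF_comb]
    rw [Nat.factorial_succ]
    push_cast
    have : ((n : ℝ) + 1) ≠ 0 := by positivity
    have : (n.factorial : ℝ) ≠ 0 := by positivity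
    field_simp

end MPb51559.BG.D
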