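import Pool.Agent.Work.MP_b51559_nt.BG.D.StmtsM

set_option autoImplicit false

namespace MPb51559.BG.D

open MeasureTheory

theorem IHr_cube_meas (κ : ℕ) : MeasurableSet (cube κ) :=
  MeasurableSet.univ_pi fun _ => measurableSet_Ioc

theorem IHr_cube_vol (κ : ℕ) : volume (cube κ) ≠ ⊤ := by
  unfold cube
  rw [Real.volume_pi_Ioc]
  exact ENNReal.prod_ne_top fun i _ => ENNReal.ofReal_ne_top

theorem prf_IHr : StIHr := by
  intro κ y
  classical
  set S : Set (ℝ × (Fin κ → ℝ)) :=
    {p | (p.1 ∈ Set.Ioc (0 : ℝ) 1 ∧ p.2 ∈ cube κ) ∧ ∑ i, p.2 i ≤ y - p.1} with hS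
  have hSm : MeasurableSet S := by
    refine MeasurableSet.inter ?_ ?_
    · exact measurableSet_Ioc.prod (IHr_cube_meas κ)
    · have m1 : Measurable (fun p : ℝ × (Fin κ → ℝ) => ∑ i, p.2 i) :=
        Finset.measurable_sum _ fun i _ => (measurable_pi_apply i).comp measurable_snd
      have m2 : Measurable (fun p : ℝ × (Fin κ → ℝ) => y - p.1) :=
        measurable_const.sub measurable_fst
      exact measurableSet_le m1 m2
  have hsub : S ⊆ Set.Ioc (0 : ℝ) 1 ×ˢ cube κ := fun p hp => hp.1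
  have hSfin : volume S ≠ ⊤ := by
    refine ne_top_of_le_ne_top ?_ (measure_mono hsub)
    rw [Measure.volume_eq_prod, Measure.prod_prod, Real.volume_Ioc]
    exact ENNReal.mul_ne_top ENNReal.ofReal_ne_top (IHr_cube_vol κ)
  have hint : Integrable (S.indicator (fun _ => (1 : ℝ))) (volume : Measure (ℝ × (Fin κ → ℝ))) := by
    rw [integrable_indicator_iff hSm]
    exact integrableOn_const hSfin
  set e := MeasurableEquiv.piFinSuccAbove (fun _ : Fin (κ + 1) => ℝ) 0 with he
  have hpres : MeasurePreserving e volume volume :=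
    volume_preserving_piFinSuccAbove (fun _ : Fin (κ + 1) => ℝ) 0
  have h1 : cdf (κ + 1) y = ∫ U : Fin (κ + 1) → ℝ, S.indicator (fun _ => (1 : ℝ)) (e U) := by
    unfold cdf
    rw [← integral_indicator (IHr_cube_meas (κ + 1))]
    refine integral_congr_ae (Filter.Eventually.of_forall fun U => ?_)
    have hmem : e U ∈ S ↔ (U ∈ cube (κ + 1) ∧ ∑ i, U i ≤ y) := by
      have h2 : e U = (U 0, fun j : Fin κ => U j.succ) := rfl
      rw [h2, hS]
      show ((U 0 ∈ Set.Ioc (0 : ℝ) 1 ∧ (fun j : Fin κ => U j.succ) ∈ cube κ) ∧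
        ∑ j : Fin κ, U j.succ ≤ y - U 0) ↔ _
      unfold cube
      rw [Set.mem_univ_pi, Set.mem_univ_pi, Fin.forall_fin_succ, Fin.sum_univ_succ]
      constructor
      · rintro ⟨a, b⟩
        exact ⟨a, by linarith⟩
      · rintro ⟨a, b⟩
        exact ⟨a, by linarith⟩
    show (cube (κ + 1)).indicator (fun U : Fin (κ + 1) → ℝ => if ∑ i, U i ≤ y then (1 : ℝ) else 0) U =
      S.indicator (fun _ => (1 : ℝ)) (e U)
    by_cases hU : U ∈ cube (κ + 1)
    · rw [Set.indicator_of_mem hU]
      by_cases hs : ∑ i, U i ≤ y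
      · rw [if_pos hs, Set.indicator_of_mem (hmem.2 ⟨hU, hs⟩)]
      · rw [if_neg hs, Set.indicator_of_notMem (fun h => hs (hmem.1 h).2)]
    · rw [Set.indicator_of_notMem hU, Set.indicator_of_notMem (fun h => hU (hmem.1 h).1)]
  rw [h1, hpres.integral_comp e.measurableEmbedding (S.indicator (fun _ => (1 : ℝ))),
    Measure.volume_eq_prod, integral_prod _ (by rwa [← Measure.volume_eq_prod]),
    intervalIntegral.integral_of_le zero_le_one, ← integral_indicator measurableSet_Ioc]
  refine integral_congr_ae (Filter.Eventually.of_forall fun u => ?_)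
  show ∫ V : Fin κ → ℝ, S.indicator (fun _ => (1 : ℝ)) (u, V) =
    (Set.Ioc (0 : ℝ) 1).indicator (fun u => cdf κ (y - u)) u
  by_cases hu : u ∈ Set.Ioc (0 : ℝ) 1
  · rw [Set.indicator_of_mem hu]
    unfold cdf
    rw [← integral_indicator (IHr_cube_meas κ)]
    refine integral_congr_ae (Filter.Eventually.of_forall fun V => ?_)
    show S.indicator (fun _ => (1 : ℝ)) (u, V) =
      (cube κ).indicator (fun U : Fin κ → ℝ => if ∑ i, U i ≤ y - u then (1 : ℝ) else 0) V
    by_cases hV : V ∈ cube κ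
    · rw [Set.indicator_of_mem hV]
      by_cases hs : ∑ i, V i ≤ y - u
      · rw [if_pos hs]
        exact Set.indicator_of_mem (show (u, V) ∈ S from ⟨⟨hu, hV⟩, hs⟩) _
      · rw [if_neg hs]
        exact Set.indicator_of_notMem (fun h : (u, V) ∈ S => hs h.2) _
    · rw [Set.indicator_of_notMem hV]
      exact Set.indicator_of_notMem (fun h : (u, V) ∈ S => hV h.1.2) _
  · rw [Set.indicator_of_notMem hu]
    have h3 : ∀ V : Fin κ → ℝ, S.indicator (fun _ => (1 : ℝ)) (u, V) = 0 := fun V =>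
      Set.indicator_of_notMem (fun h : (u, V) ∈ S => hu h.1.1) _
    rw [integral_congr_ae (Filter.Eventually.of_forall h3), integral_zero]

end MPb51559.BG.D
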