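import Pool.Agent.Work.MP_b51559_nt.BG.D.StmtsM

set_option autoImplicit false

namespace MPb51559.BG.D

theorem prf_Idx : StIdx := by
  intro n0 hn0 x n
  have h0 : (0 : ℝ) < n0 := by exact_mod_cast hn0
  have key : 0 < x → (idx n0 x = n ↔ ((n : ℝ) < n0 * x ∧ n0 * x ≤ (n : ℝ) + 1)) := by
    intro hx
    have h1 : 0 < ⌈(n0 : ℝ) * x⌉₊ := Nat.ceil_pos.2 (mul_pos h0 hx)
    have h2 : idx n0 x = n ↔ ⌈(n0 : ℝ) * x⌉₊ = n + 1 := by
      unfold idx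
      omega
    rw [h2, Nat.ceil_eq_iff (Nat.succ_ne_zero n)]
    simp
  have hdiv : ((n : ℝ) / n0 < x ∧ x ≤ ((n : ℝ) + 1) / n0) ↔
      ((n : ℝ) < n0 * x ∧ n0 * x ≤ (n : ℝ) + 1) := by
    rw [div_lt_iff₀ h0, le_div_iff₀ h0, mul_comm x]
  constructor
  · rintro ⟨hx, h⟩
    exact hdiv.2 ((key hx).1 h)
  · intro h
    have hx : 0 < x := lt_of_le_of_lt (by positivity) h.1
    exact ⟨hx, (key hx).2 (hdiv.1 h)⟩

end MPb51559.BG.D
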