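import Pool.Agent.Work.MP_b51559_nt.BG.D.StmtsM

set_option autoImplicit false

/-!
# Item JSm: the weighted sum of the squares of the marginal
-/

namespace MPb51559.BG.D

open Finset Polynomial

theorem JSm_W (Z : Dat) (a N : ℕ) (hN : Z.J + 1 ≤ N) : Z.W a N = 0 := by
  unfold Dat.W
  rw [Nat.sub_eq_zero_of_le hN, range_zero, sum_empty]

theorem JSm_sq (Z : Dat) (κ : ℕ) (n : Fin κ → ℕ) :
    Z.R κ (∑ i, n i) * Z.G n ^ 2 = ∑ a ∈ range Z.A, ∑ b ∈ range Z.A,
      (fun N => Z.R κ N * Z.W a N * Z.W b N) (∑ i, n i) *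
        ∏ i, (fun j => Z.g a j * Z.g b j) (n i) := by
  unfold Dat.G
  rw [sq, sum_mul_sum, mul_sum]
  refine sum_congr rfl fun a _ => ?_
  rw [mul_sum]
  refine sum_congr rfl fun b _ => ?_
  simp only [prod_mul_distrib]
  ring

theorem prf_JSm : StJSm := by
  intro hC Z κ
  simp only [JSm_sq]
  unfold Dat.JS
  rw [sum_comm]
  refine sum_congr rfl fun a _ => ?_
  rw [sum_comm]
  refine sum_congr rfl fun b _ => ?_
  exact hC κ (Z.J + 1) (Z.J + 1) (fun N => Z.R κ N * Z.W a N * Z.W b N)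
    (fun j => Z.g a j * Z.g b j) fun N hN => by rw [JSm_W Z a N hN]; ring

end MPb51559.BG.D
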