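import Pool.Agent.Work.MP_b51559_nt.BG.D.StmtsN

set_option autoImplicit false

/-!
# Block BG, part D, item JmE: the prime form as an integral over the other variables
-/

namespace MPb51559.BG.D

open Finset MeasureTheory Polynomial

/-- the sum over the other coordinates -/
theorem JmE_sum {κ : ℕ} (m : Fin (κ + 1)) (t : Fin (κ + 1) → ℝ) :
    ∑ j ∈ univ.erase m, t j = ∑ j : Fin κ, t (m.succAbove j) := by
  have h1 := Fin.sum_univ_succAbove t m
  have h2 := Finset.add_sum_erase univ t (Finset.mem_univ m)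
  linarith

theorem prf_JmE : StJmE := by
  intro hIdx hMrg hSpl Z hn0 κ m
  set Ψ : (Fin κ → ℝ) → ℝ := fun s => (Z.sl (κ + 1)).rho (∑ i, s i) *
    ((1 / (Z.n0 : ℝ)) * stp Z.n0 (fun n : Fin κ → ℕ => (Z.G n : ℝ)) s) ^ 2 with hΨ
  have hint : (fun t : Fin (κ + 1) → ℝ => (Z.sl (κ + 1)).rho (∑ j ∈ univ.erase m, t j) *
      marg (Z.F (κ + 1)) m t ^ 2) = fun t => Ψ (fun j => t (m.succAbove j)) := by
    funext t
    rw [JmE_sum m t, hMrg hIdx Z hn0 κ m t]
  unfold Jm
  rw [hint, hSpl κ m Ψ, ← integral_const_mul]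
  refine congrArg (fun f : (Fin κ → ℝ) → ℝ => ∫ s, f s) ?_
  funext s
  rw [hΨ]
  ring

end MPb51559.BG.D
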