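import Pool.Agent.Work.MP_b51559_nt.BG.D.StmtsM

set_option autoImplicit false

/-!
# Item Low: the prime form of a step function from below
-/

namespace MPb51559.BG.D

open Finset MeasureTheory Polynomial

theorem Low_stp_sq {κ : ℕ} (n0 : ℕ) (G : (Fin κ → ℕ) → ℝ) (t : Fin κ → ℝ) :
    stp n0 G t ^ 2 = stp n0 (fun n => G n ^ 2) t := by
  unfold stp
  by_cases h : ∀ i, 0 < t i
  · rw [if_pos h, if_pos h]
  · rw [if_neg h, if_neg h]; norm_num

theorem Low_meas_sum {κ : ℕ} : Measurable (fun t : Fin κ → ℝ => ∑ i, t i) :=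
  Finset.measurable_sum _ (fun i _ => measurable_pi_apply i)

theorem Low_cube (κ : ℕ) : MeasurableSet (cube κ) ∧ volume (cube κ) < ⊤ := by
  refine ⟨MeasurableSet.univ_pi (fun _ => measurableSet_Ioc), ?_⟩
  unfold cube
  rw [volume_pi_pi]
  simp

theorem Low_int {κ : ℕ} (S : Set (Fin κ → ℝ)) (hv : volume S < ⊤)
    (ρ : ℝ → ℝ) (hρ : Measurable ρ) (K : ℝ) (hK : ∀ s, |ρ s| ≤ K) (b : ℝ → ℝ) (hb : Measurable b) :
    IntegrableOn (fun t : Fin κ → ℝ => ρ (b (∑ i, t i))) S := by
  have hm : Measurable (fun t : Fin κ → ℝ => ρ (b (∑ i, t i))) :=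
    hρ.comp (hb.comp Low_meas_sum)
  refine IntegrableOn.of_bound hv hm.aestronglyMeasurable K ?_
  filter_upwards with t
  rw [Real.norm_eq_abs]
  exact hK _

theorem prf_Low : StLow := by
  intro h1 h2 h3 κ n0 M den hn0 hden hS ρ r G hρ hρb hr hG
  obtain ⟨K, hK⟩ := hρb
  have hn0R : (0 : ℝ) < n0 := by exact_mod_cast hn0
  have hdenR : (0 : ℝ) < den := by exact_mod_cast hden
  have hfac : (0 : ℝ) < (κ.factorial : ℝ) := by exact_mod_cast κ.factorial_pos
  have hφ : ∀ n : Fin κ → ℕ, n ∉ Fintype.piFinset (fun _ : Fin κ => range M) →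
      (fun n => G n ^ 2) n = 0 := by
    intro n hn
    rw [Fintype.mem_piFinset] at hn
    push Not at hn
    obtain ⟨i, hi⟩ := hn
    rw [Finset.mem_range, not_lt] at hi
    have : M ≤ ∑ j, n j := le_trans hi (Finset.single_le_sum (f := n) (fun j _ => Nat.zero_le _)
      (Finset.mem_univ i))
    simp [hG n this]
  obtain ⟨hstp, -, -, -⟩ := h2 κ n0 M hn0 (fun n => G n ^ 2) hφ
  have hcell : ∀ n : Fin κ → ℕ, MeasurableSet (cell n0 n) := fun n => (h1 κ n0 hn0 n).1
  have hcellv : ∀ n : Fin κ → ℕ, volume (cell n0 n) < ⊤ := by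
    intro n
    rw [(h1 κ n0 hn0 n).2.1]
    exact ENNReal.ofReal_lt_top
  have hint : ∀ n : Fin κ → ℕ, IntegrableOn (fun t : Fin κ → ℝ => ρ (∑ i, t i)) (cell n0 n) :=
    fun n => Low_int (cell n0 n) (hcellv n) ρ hρ K hK id measurable_id
  -- the integral as a sum over the cells
  have hsum : ∫ t : Fin κ → ℝ, ρ (∑ i, t i) * stp n0 G t ^ 2 =
      ∑ n ∈ Fintype.piFinset (fun _ : Fin κ => range M),
        G n ^ 2 * ∫ t in cell n0 n, ρ (∑ i, t i) := by
    have heq : (fun t : Fin κ → ℝ => ρ (∑ i, t i) * stp n0 G t ^ 2) = fun t =>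
        ∑ n ∈ Fintype.piFinset (fun _ : Fin κ => range M),
          (cell n0 n).indicator (fun t => G n ^ 2 * ρ (∑ i, t i)) t := by
      funext t
      rw [Low_stp_sq, hstp, Finset.mul_sum]
      apply Finset.sum_congr rfl
      intro n _
      by_cases ht : t ∈ cell n0 n
      · rw [Set.indicator_of_mem ht, Set.indicator_of_mem ht]; ring
      · rw [Set.indicator_of_notMem ht, Set.indicator_of_notMem ht]; ring
    rw [heq, integral_finsetSum]
    · apply Finset.sum_congr rfl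
      intro n _
      rw [integral_indicator (hcell n), integral_const_mul]
    · intro n _
      rw [integrable_indicator_iff (hcell n)]
      exact (hint n).const_mul _
  rw [hsum, mul_div_assoc, Finset.sum_div, Finset.mul_sum]
  apply Finset.sum_le_sum
  intro n _
  rw [h3 κ n0 hn0 n ρ]
  by_cases hGn : G n = 0
  · rw [hGn]; norm_num
  have hN : ∑ i, n i < M := by
    by_contra hc
    exact hGn (hG n (not_lt.mp hc))
  have hsl := hS (fun s => ρ ((((∑ i, n i : ℕ) : ℝ) + s) / n0))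
    (fun u => (r ((∑ i, n i) + u) : ℝ) / den)
    (Low_int (cube κ) (Low_cube κ).2 ρ hρ K hK
      (fun s => (((∑ i, n i : ℕ) : ℝ) + s) / n0) (by fun_prop))
    (by
      intro u hu s hs1 hs2
      apply hr ((∑ i, n i) + u) (by omega)
      · rw [div_lt_div_iff_of_pos_right hn0R]
        push_cast
        push_cast at *
        linarith
      · rw [div_le_div_iff_of_pos_right hn0R]
        push_cast
        push_cast at *
        linarith)
  have hcast : ((∑ u ∈ range κ, eul κ u * r ((∑ i, n i) + u) : ℤ) : ℝ) /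
      ((den : ℝ) * (κ.factorial : ℝ)) =
      ∑ u ∈ range κ, ((r ((∑ i, n i) + u) : ℝ) / den) * ((eul κ u : ℝ) / (κ.factorial : ℝ)) := by
    rw [Int.cast_sum, Finset.sum_div]
    apply Finset.sum_congr rfl
    intro u _
    push_cast
    field_simp
  have hc : 0 ≤ (1 / (n0 : ℝ)) ^ κ := by positivity
  calc (1 / (n0 : ℝ)) ^ κ * (((∑ u ∈ range κ, eul κ u * r ((∑ i, n i) + u) : ℤ) : ℝ) * G n ^ 2 /
        ((den : ℝ) * (κ.factorial : ℝ)))
      = (G n ^ 2 * (1 / (n0 : ℝ)) ^ κ) *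
        (((∑ u ∈ range κ, eul κ u * r ((∑ i, n i) + u) : ℤ) : ℝ) /
          ((den : ℝ) * (κ.factorial : ℝ))) := by ring
    _ ≤ (G n ^ 2 * (1 / (n0 : ℝ)) ^ κ) *
        ∫ U in cube κ, ρ ((((∑ i, n i : ℕ) : ℝ) + ∑ i, U i) / n0) := by
        rw [hcast]
        exact mul_le_mul_of_nonneg_left hsl (by positivity)
    _ = _ := by ring

end MPb51559.BG.D
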