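import Pool.Agent.Work.MP_b51559_nt.BG.D.StmtsM

set_option autoImplicit false

/-! # Block BG, part D: the marginal of the test function -/

namespace MPb51559.BG.D

open Finset MeasureTheory

theorem Mrg_idx_update {κ : ℕ} (n0 : ℕ) (m : Fin (κ + 1)) (t : Fin (κ + 1) → ℝ) (s : ℝ) :
    (fun i => idx n0 (Function.update t m s i)) =
      m.insertNth (idx n0 s) (fun j => idx n0 (t (m.succAbove j))) := by
  funext i
  rcases Fin.eq_self_or_eq_succAbove m i with rfl | ⟨j, rfl⟩
  · simp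
  · rw [Function.update_of_ne (Fin.succAbove_ne m j), Fin.insertNth_apply_succAbove]

theorem Mrg_pos_update {κ : ℕ} (m : Fin (κ + 1)) (t : Fin (κ + 1) → ℝ) (s : ℝ) :
    (∀ i, 0 < Function.update t m s i) ↔ 0 < s ∧ ∀ j, 0 < t (m.succAbove j) := by
  rw [Fin.forall_iff_succAbove m, Function.update_self]
  constructor
  · rintro ⟨h1, h2⟩
    refine ⟨h1, fun j => ?_⟩
    have := h2 j
    rwa [Function.update_of_ne (Fin.succAbove_ne m j)] at this
  · rintro ⟨h1, h2⟩
    refine ⟨h1, fun j => ?_⟩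
    rw [Function.update_of_ne (Fin.succAbove_ne m j)]
    exact h2 j

theorem Mrg_f {κ : ℕ} (Z : Dat) (m : Fin (κ + 1)) (n : Fin κ → ℕ) (i : ℕ) :
    Z.f (m.insertNth i n : Fin (κ + 1) → ℕ) =
      if i + ∑ j, n j ≤ Z.J then
        ∑ a ∈ range Z.A, Z.H a (i + ∑ j, n j) * (Z.g a i * ∏ j, Z.g a (n j)) else 0 := by
  have hs : ∑ l, (m.insertNth i n : Fin (κ + 1) → ℕ) l = i + ∑ j, n j := by
    rw [Fin.sum_univ_succAbove _ m]
    simp
  have hp : ∀ a, ∏ l, Z.g a ((m.insertNth i n : Fin (κ + 1) → ℕ) l) =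
      Z.g a i * ∏ j, Z.g a (n j) := by
    intro a
    rw [Fin.prod_univ_succAbove _ m]
    simp
  unfold Dat.f
  rw [hs]
  simp only [hp]

theorem Mrg_G {κ : ℕ} (Z : Dat) (m : Fin (κ + 1)) (n : Fin κ → ℕ) :
    ∑ i ∈ range (Z.J + 1), Z.f (m.insertNth i n : Fin (κ + 1) → ℕ) = Z.G n := by
  simp only [Mrg_f]
  rw [← Finset.sum_filter]
  have hfil : (range (Z.J + 1)).filter (fun i => i + ∑ j, n j ≤ Z.J) =
      range (Z.J + 1 - ∑ j, n j) := by
    ext i
    simp only [Finset.mem_filter, Finset.mem_range]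
    omega
  rw [hfil, Finset.sum_comm]
  unfold Dat.G Dat.W
  refine Finset.sum_congr rfl (fun a _ => ?_)
  rw [Finset.sum_mul]
  refine Finset.sum_congr rfl (fun i _ => ?_)
  rw [Nat.add_comm i]
  ring

theorem Mrg_int (h : StIdx) (n0 : ℕ) (hn : 0 < n0) (M : ℕ) (ψ : ℕ → ℝ)
    (hψ : ∀ i, M ≤ i → ψ i = 0) :
    ∫ s, (open Classical in if 0 < s then ψ (idx n0 s) else (0 : ℝ)) =
      (1 / (n0 : ℝ)) * ∑ i ∈ range M, ψ i := by
  classical
  have hn' : (0 : ℝ) < n0 := by exact_mod_cast hn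
  have heq : (fun s : ℝ => if 0 < s then ψ (idx n0 s) else (0 : ℝ)) =
      fun s => ∑ i ∈ range M,
        (Set.Ioc ((i : ℝ) / n0) (((i : ℝ) + 1) / n0)).indicator (fun _ => ψ i) s := by
    funext s
    have hmem : ∀ i : ℕ, s ∈ Set.Ioc ((i : ℝ) / n0) (((i : ℝ) + 1) / n0) ↔
        (0 < s ∧ idx n0 s = i) := by
      intro i
      rw [h n0 hn s i]
      exact Iff.rfl
    by_cases hs : 0 < s
    · rw [if_pos hs]
      by_cases hM : idx n0 s < M
      · rw [Finset.sum_eq_single (idx n0 s)]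
        · rw [Set.indicator_of_mem ((hmem _).2 ⟨hs, rfl⟩)]
        · intro b _ hb
          rw [Set.indicator_of_notMem]
          intro hb'
          exact hb ((hmem b).1 hb').2.symm
        · intro hb
          exact absurd (Finset.mem_range.2 hM) hb
      · rw [hψ _ (not_lt.1 hM), Finset.sum_eq_zero]
        intro b hb
        rw [Set.indicator_of_notMem]
        intro hb'
        have := ((hmem b).1 hb').2
        rw [this] at hM
        exact hM (Finset.mem_range.1 hb)
    · rw [if_neg hs, Finset.sum_eq_zero]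
      intro b _
      rw [Set.indicator_of_notMem]
      intro hb'
      exact hs ((hmem b).1 hb').1
  have hvol : ∀ i : ℕ, volume.real (Set.Ioc ((i : ℝ) / n0) (((i : ℝ) + 1) / n0)) =
      1 / (n0 : ℝ) := by
    intro i
    rw [Measure.real, Real.volume_Ioc, ENNReal.toReal_ofReal]
    · field_simp
      ring
    · rw [sub_nonneg]
      exact div_le_div_of_nonneg_right (by linarith) hn'.le
  have hint : ∀ i ∈ range M, Integrable
      ((Set.Ioc ((i : ℝ) / n0) (((i : ℝ) + 1) / n0)).indicator (fun _ => ψ i)) := by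
    intro i _
    rw [integrable_indicator_iff measurableSet_Ioc]
    refine integrableOn_const ?_
    rw [Real.volume_Ioc]
    exact ENNReal.ofReal_ne_top
  rw [heq, integral_finsetSum _ hint, Finset.mul_sum]
  refine Finset.sum_congr rfl (fun i _ => ?_)
  rw [integral_indicator_const _ measurableSet_Ioc, hvol i, smul_eq_mul]

theorem prf_Mrg : StMrg := by
  classical
  intro h Z hn κ m t
  unfold marg Dat.F
  by_cases hpos : ∀ j, 0 < t (m.succAbove j)
  · set n' : Fin κ → ℕ := fun j => idx Z.n0 (t (m.succAbove j)) with hn'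
    have h1 : (fun s : ℝ => stp Z.n0 (fun n : Fin (κ + 1) → ℕ => (Z.f n : ℝ))
        (Function.update t m s)) = fun s : ℝ =>
        if 0 < s then (fun i : ℕ => (Z.f (m.insertNth i n' : Fin (κ + 1) → ℕ) : ℝ)) (idx Z.n0 s)
          else 0 := by
      funext s
      unfold stp
      by_cases hs : 0 < s
      · rw [if_pos ((Mrg_pos_update m t s).2 ⟨hs, hpos⟩), if_pos hs, Mrg_idx_update]
      · rw [if_neg (fun hc => hs ((Mrg_pos_update m t s).1 hc).1), if_neg hs]
    have h2 := Mrg_int h Z.n0 hn (Z.J + 1)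
      (fun i : ℕ => (Z.f (m.insertNth i n' : Fin (κ + 1) → ℕ) : ℝ)) (by
        intro i hi
        have : Z.f (m.insertNth i n' : Fin (κ + 1) → ℕ) = 0 := by
          rw [Mrg_f, if_neg]
          omega
        simp only [this, Int.cast_zero])
    have h3 : stp Z.n0 (fun n : Fin κ → ℕ => (Z.G n : ℝ)) (fun j => t (m.succAbove j)) =
        (Z.G n' : ℝ) := by
      unfold stp
      rw [if_pos hpos]
    rw [h1, h3]
    refine Eq.trans ?_ (h2.trans ?_)
    · congr
    · rw [← Mrg_G Z m n', Int.cast_sum]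
  · have h1 : (fun s : ℝ => stp Z.n0 (fun n : Fin (κ + 1) → ℕ => (Z.f n : ℝ))
        (Function.update t m s)) = fun _ : ℝ => 0 := by
      funext s
      unfold stp
      rw [if_neg (fun hc => hpos ((Mrg_pos_update m t s).1 hc).2)]
    have h3 : stp Z.n0 (fun n : Fin κ → ℕ => (Z.G n : ℝ)) (fun j => t (m.succAbove j)) = 0 := by
      unfold stp
      rw [if_neg hpos]
    rw [h1, h3]
    simp

end MPb51559.BG.D
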