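import Pool.Agent.Work.MP_b51559_nt.BG.D.StmtsN

set_option autoImplicit false

/-!
# Block BG, part D, item NumD: the reduction of the numerics to an integer inequality
-/

namespace MPb51559.BG.D

open Finset MeasureTheory Polynomial

theorem NumD_G_zero (Z : Dat) {κ : ℕ} (n : Fin κ → ℕ) (h : Z.J + 1 ≤ ∑ i, n i) : Z.G n = 0 := by
  unfold Dat.G Dat.W
  refine Finset.sum_eq_zero fun a _ => ?_
  rw [Nat.sub_eq_zero_of_le h]
  simp

theorem NumD_fin {n0 den f IS JS : ℝ} {κ : ℕ} (hn0 : 0 < n0) (hden : 0 < den) (hf : 0 < f)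
    (h : 4 * n0 * den * f * IS < ((κ : ℝ) + 1) * JS) :
    4 * ((1 / n0) ^ (κ + 1) * IS) <
      ((κ : ℝ) + 1) * ((1 / n0) ^ 2 * ((1 / n0) ^ κ * JS / (den * f))) := by
  have hc : 0 < 1 / n0 := by positivity
  have e1 : 4 * ((1 / n0) ^ (κ + 1) * IS) = (1 / n0) ^ (κ + 2) * (4 * n0 * IS) := by
    have : (1 / n0) * n0 = 1 := by field_simp
    calc 4 * ((1 / n0) ^ (κ + 1) * IS) = 4 * ((1 / n0) ^ (κ + 1) * ((1 / n0) * n0) * IS) := by
          rw [this, mul_one]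
      _ = (1 / n0) ^ (κ + 2) * (4 * n0 * IS) := by ring
  have e2 : ((κ : ℝ) + 1) * ((1 / n0) ^ 2 * ((1 / n0) ^ κ * JS / (den * f))) =
      (1 / n0) ^ (κ + 2) * (((κ : ℝ) + 1) * JS / (den * f)) := by ring
  rw [e1, e2]
  refine mul_lt_mul_of_pos_left ?_ (by positivity)
  rw [lt_div_iff₀ (by positivity)]
  linarith

theorem prf_NumD : StNumD := by
  intro hIdx hCel hStp hChg hIHr hIH1 hTPI hIHF hEulF hSlb hMrg hSpl hCmb hISm hJSm hVar hBdf hTst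
    hLow hRhM hOkS hRhC hJmE hI2 Z κ hκ hG hmain
  have hOk : (Z.sl (κ + 1)).Ok := hOkS Z (κ + 1) hG
  refine ⟨Z.sl (κ + 1), Z.F (κ + 1), hOk,
    hTst hIdx hStp hVar hBdf Z hG.n0pos (κ + 1), ?_⟩
  obtain ⟨hm, hb⟩ := hRhM _ hOk
  have hn0 : (0 : ℝ) < Z.n0 := by exact_mod_cast hG.n0pos
  have hden : (0 : ℝ) < Z.den := by exact_mod_cast hG.denpos
  have hf : (0 : ℝ) < (κ.factorial : ℝ) := by positivity
  have hJ : ∀ m : Fin (κ + 1), (1 / (Z.n0 : ℝ)) ^ 2 *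
      ((1 / (Z.n0 : ℝ)) ^ κ * (Z.JS κ : ℝ) / ((Z.den : ℝ) * (κ.factorial : ℝ))) ≤
      Jm (Z.sl (κ + 1)) (Z.F (κ + 1)) m := by
    intro m
    rw [hJmE hIdx hMrg hSpl Z hG.n0pos κ m]
    refine mul_le_mul_of_nonneg_left ?_ (by positivity)
    have h := hLow hCel hStp hChg κ Z.n0 (Z.J + 1) Z.den hG.n0pos hG.denpos
      (hSlb hEulF κ hκ (hIHF hIHr hIH1 hTPI κ hκ)) (Z.sl (κ + 1)).rho Z.r
      (fun n : Fin κ → ℕ => (Z.G n : ℝ)) hm hb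
      (fun v hv s h1 h2 => hRhC Z (κ + 1) hG v (by omega) s h1 h2)
      (fun n hn => by
        show ((Z.G n : ℤ) : ℝ) = 0
        rw [NumD_G_zero Z n hn, Int.cast_zero])
    have e1 : (Z.JS κ : ℝ) = ∑ n ∈ Fintype.piFinset (fun _ : Fin κ => range (Z.J + 1)),
        ((∑ u ∈ range κ, eul κ u * Z.r ((∑ i, n i) + u) : ℤ) : ℝ) * (Z.G n : ℝ) ^ 2 := by
      rw [← hJSm hCmb Z κ, Int.cast_sum]
      refine Finset.sum_congr rfl fun n _ => ?_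
      rw [Int.cast_mul, Int.cast_pow]
      rfl
    rw [e1]
    exact h
  have hS : ((κ : ℝ) + 1) * ((1 / (Z.n0 : ℝ)) ^ 2 *
      ((1 / (Z.n0 : ℝ)) ^ κ * (Z.JS κ : ℝ) / ((Z.den : ℝ) * (κ.factorial : ℝ)))) ≤
      ∑ m, Jm (Z.sl (κ + 1)) (Z.F (κ + 1)) m := by
    have := Finset.card_nsmul_le_sum (univ : Finset (Fin (κ + 1)))
      (fun m => Jm (Z.sl (κ + 1)) (Z.F (κ + 1)) m) _ (fun m _ => hJ m)
    rw [Finset.card_univ, Fintype.card_fin, nsmul_eq_mul] at this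
    push_cast at this
    exact this
  unfold Crit
  refine lt_of_lt_of_le ?_ hS
  rw [hI2 hStp hBdf hISm hCmb Z hG.n0pos (κ + 1)]
  refine NumD_fin hn0 hden hf ?_
  exact_mod_cast hmain

end MPb51559.BG.D
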