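import Pool.Agent.Work.MP_b51559_nt.BG.D.StmtsN

set_option autoImplicit false

/-!
# Item OkS: the slices are admissible
-/

namespace MPb51559.BG.D

open Finset MeasureTheory

theorem prf_OkS : StOkS := by
  intro Z k hG
  have hn : (0 : ℝ) < Z.n0 := by exact_mod_cast hG.n0pos
  have hld : (0 : ℝ) < Z.ld := by exact_mod_cast hG.ldpos
  have h1 : (Z.n0 : ℝ) < (Z.J : ℝ) + k := by exact_mod_cast hG.hT1
  have h2 : (Z.J : ℝ) + k < 2 * Z.n0 := by exact_mod_cast hG.hT2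
  refine ⟨?_, ?_, ?_, ?_, ?_, ?_, ?_⟩
  · show 1 < ((Z.J : ℝ) + k) / Z.n0
    rw [lt_div_iff₀ hn]
    linarith
  · show ((Z.J : ℝ) + k) / Z.n0 < 2
    rw [div_lt_iff₀ hn]
    linarith
  · show ((0 : ℕ) : ℝ) / Z.n0 = 0
    simp
  · intro l _
    show (l : ℝ) / Z.n0 < ((l + 1 : ℕ) : ℝ) / Z.n0
    push_cast
    exact div_lt_div_of_pos_right (by linarith) hn
  · show ((Z.J + k - Z.n0 : ℕ) : ℝ) / Z.n0 ≤ ((Z.J : ℝ) + k) / Z.n0 - 1
    rw [Nat.cast_sub hG.hT1.le]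
    push_cast
    rw [sub_div, div_self hn.ne']
  · intro l _
    show 0 ≤ (Z.la l : ℝ) / Z.ld
    positivity
  · intro l hl
    show (Z.la (l + 1) : ℝ) / Z.ld * (4 - ((Z.J : ℝ) + k) / Z.n0 + ((l + 2 : ℕ) : ℝ) / Z.n0) ≤
      (Z.la l : ℝ) / Z.ld * (4 - ((Z.J : ℝ) + k) / Z.n0 + ((l + 1 : ℕ) : ℝ) / Z.n0)
    have h3 := hG.lamm l hl
    have h4 : Z.J + k ≤ 4 * Z.n0 := by have := hG.hT2; omega
    have h5 : ((Z.la (l + 1) * (4 * Z.n0 - (Z.J + k) + l + 2) : ℕ) : ℝ) ≤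
        ((Z.la l * (4 * Z.n0 - (Z.J + k) + l + 1) : ℕ) : ℝ) := by exact_mod_cast h3
    push_cast [Nat.cast_sub h4] at h5
    have e1 : (Z.la (l + 1) : ℝ) / Z.ld * (4 - ((Z.J : ℝ) + k) / Z.n0 + ((l + 2 : ℕ) : ℝ) / Z.n0) =
        ((Z.la (l + 1) : ℝ) * (4 * Z.n0 - (Z.J + k) + l + 2)) / (Z.ld * Z.n0) := by
      push_cast
      field_simp
      ring
    have e2 : (Z.la l : ℝ) / Z.ld * (4 - ((Z.J : ℝ) + k) / Z.n0 + ((l + 1 : ℕ) : ℝ) / Z.n0) =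
        ((Z.la l : ℝ) * (4 * Z.n0 - (Z.J + k) + l + 1)) / (Z.ld * Z.n0) := by
      push_cast
      field_simp
      ring
    rw [e1, e2]
    exact div_le_div_of_nonneg_right h5 (by positivity)

end MPb51559.BG.D
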