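import Pool.Agent.Work.MP_b51559_nt.BG.D.StmtsN

set_option autoImplicit false

/-!
# Item RhC: the density on a cell
-/

namespace MPb51559.BG.D

open Finset MeasureTheory Polynomial

theorem RhC_lt (v : ℕ) (x : ℝ) (h1 : (v : ℝ) < x) (h2 : x ≤ v + 1) (w : ℤ) :
    (w : ℝ) < x ↔ w ≤ v := by
  constructor
  · intro h
    have h3 : (w : ℝ) < ((v + 1 : ℤ) : ℝ) := by push_cast; linarith
    have := Int.cast_lt.mp h3
    omega
  · intro h
    have h3 : (w : ℝ) ≤ ((v : ℤ) : ℝ) := Int.cast_le.mpr h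
    push_cast at h3
    linarith

theorem RhC_le (v : ℕ) (x : ℝ) (h1 : (v : ℝ) < x) (h2 : x ≤ v + 1) (w : ℤ) :
    x ≤ (w : ℝ) ↔ (v : ℤ) + 1 ≤ w := by
  constructor
  · intro h
    have h3 : ((v : ℤ) : ℝ) < (w : ℝ) := by push_cast; linarith
    have := Int.cast_lt.mp h3
    omega
  · intro h
    have h3 : (((v : ℤ) + 1 : ℤ) : ℝ) ≤ (w : ℝ) := Int.cast_le.mpr h
    push_cast at h3
    linarith

/-- the density on a cell, with integer conditions -/
theorem RhC_rho (Z : Dat) (k : ℕ) (hn : 0 < Z.n0) (v : ℕ) (s : ℝ)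
    (h1 : (v : ℝ) / Z.n0 < s) (h2 : s ≤ ((v : ℝ) + 1) / Z.n0) :
    (Z.sl k).rho s = if (v : ℤ) + 1 ≤ 2 * Z.n0 - (Z.J + k) then 1 else
      ∑ l ∈ range (Z.J + k - Z.n0),
        ((if (v : ℤ) = 2 * Z.n0 - (Z.J + k) + l then
          ((Z.la l : ℝ) / Z.ld) / (1 + (Z.la l : ℝ) / Z.ld) else 0) -
        (if (v : ℤ) = (Z.J + k) - l - 1 then
          ((Z.la l : ℝ) / Z.ld) * ((4 - ((Z.J : ℝ) + k) / Z.n0 + ((l + 1 : ℕ) : ℝ) / Z.n0) /
            (2 - s)) else 0)) := by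
  have hnR : (0 : ℝ) < Z.n0 := by exact_mod_cast hn
  have hx1 : (v : ℝ) < s * Z.n0 := by rwa [div_lt_iff₀ hnR] at h1
  have hx2 : s * Z.n0 ≤ v + 1 := by rwa [le_div_iff₀ hnR] at h2
  have hle : ∀ w : ℤ, s ≤ (w : ℝ) / Z.n0 ↔ (v : ℤ) + 1 ≤ w := by
    intro w
    rw [le_div_iff₀ hnR]
    exact RhC_le v _ hx1 hx2 w
  have hlt : ∀ w : ℤ, (w : ℝ) / Z.n0 < s ↔ w ≤ v := by
    intro w
    rw [div_lt_iff₀ hnR]
    exact RhC_lt v _ hx1 hx2 w
  have e1 : 2 - ((Z.J : ℝ) + k) / Z.n0 = ((2 * Z.n0 - (Z.J + k) : ℤ) : ℝ) / Z.n0 := by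
    push_cast
    field_simp
  have e2 : ∀ l : ℕ, 2 - ((Z.J : ℝ) + k) / Z.n0 + (l : ℝ) / Z.n0 =
      ((2 * Z.n0 - (Z.J + k) + l : ℤ) : ℝ) / Z.n0 := by
    intro l
    push_cast
    field_simp
  have e3 : ∀ l : ℕ, ((Z.J : ℝ) + k) / Z.n0 - (l : ℝ) / Z.n0 =
      (((Z.J + k) - l : ℤ) : ℝ) / Z.n0 := by
    intro l
    push_cast
    field_simp
  unfold Sl.rho Dat.sl
  simp only []
  have c1 : (s ≤ 2 - ((Z.J : ℝ) + k) / Z.n0) ↔ (v : ℤ) + 1 ≤ 2 * Z.n0 - (Z.J + k) := by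
    rw [e1]; exact hle _
  have c2 : ∀ l : ℕ, (2 - ((Z.J : ℝ) + k) / Z.n0 + (l : ℝ) / Z.n0 < s ∧
      s ≤ 2 - ((Z.J : ℝ) + k) / Z.n0 + ((l + 1 : ℕ) : ℝ) / Z.n0) ↔
      (v : ℤ) = 2 * Z.n0 - (Z.J + k) + l := by
    intro l
    rw [e2, e2, hle, hlt]
    push_cast
    constructor
    · rintro ⟨a, b⟩; omega
    · intro a; constructor <;> omega
  have c3 : ∀ l : ℕ, (((Z.J : ℝ) + k) / Z.n0 - ((l + 1 : ℕ) : ℝ) / Z.n0 < s ∧
      s ≤ ((Z.J : ℝ) + k) / Z.n0 - (l : ℝ) / Z.n0) ↔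
      (v : ℤ) = (Z.J + k) - l - 1 := by
    intro l
    rw [e3, e3, hle, hlt]
    push_cast
    constructor
    · rintro ⟨a, b⟩; omega
    · intro a; constructor <;> omega
  by_cases hc1 : (v : ℤ) + 1 ≤ 2 * Z.n0 - (Z.J + k)
  · rw [if_pos (c1.mpr hc1), if_pos hc1]
  · rw [if_neg (fun h => hc1 (c1.mp h)), if_neg hc1]
    apply Finset.sum_congr rfl
    intro l _
    congr 1
    · by_cases hc2 : (v : ℤ) = 2 * Z.n0 - (Z.J + k) + l
      · rw [if_pos ((c2 l).mpr hc2), if_pos hc2]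
      · rw [if_neg (fun h => hc2 ((c2 l).mp h)), if_neg hc2]
    · by_cases hc3 : (v : ℤ) = (Z.J + k) - l - 1
      · rw [if_pos ((c3 l).mpr hc3), if_pos hc3]
      · rw [if_neg (fun h => hc3 ((c3 l).mp h)), if_neg hc3]

theorem prf_RhC : StRhC := by
  intro Z k hZ v hv s hs1 hs2
  obtain ⟨hn, hden, hld, hT1, hT2, -, hcore, hin, hout⟩ := hZ
  rw [RhC_rho Z k hn v s hs1 hs2]
  have hnR : (0 : ℝ) < Z.n0 := by exact_mod_cast hn
  have hdenR : (0 : ℝ) < Z.den := by exact_mod_cast hden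
  have hldR : (0 : ℝ) < Z.ld := by exact_mod_cast hld
  by_cases hc : (v : ℤ) + 1 ≤ 2 * Z.n0 - (Z.J + k)
  · rw [if_pos hc, div_le_one hdenR]
    have h := hcore v (by omega)
    exact_mod_cast h
  rw [if_neg hc]
  by_cases hvn : v < Z.n0
  · -- inner slices
    obtain ⟨l, hl⟩ : ∃ l : ℕ, v = 2 * Z.n0 - (Z.J + k) + l := ⟨v - (2 * Z.n0 - (Z.J + k)), by omega⟩
    have hlL : l < Z.J + k - Z.n0 := by omega
    rw [Finset.sum_eq_single l]
    · rw [if_pos (by omega), if_neg (by omega), sub_zero]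
      have h := hin l hlL
      rw [← hl] at h
      have hR : (Z.r v : ℝ) * ((Z.ld : ℝ) + Z.la l) ≤ (Z.den : ℝ) * Z.la l := by
        exact_mod_cast h
      have hla : (0 : ℝ) ≤ Z.la l := Nat.cast_nonneg _
      have e : ((Z.la l : ℝ) / Z.ld) / (1 + (Z.la l : ℝ) / Z.ld) =
          (Z.la l : ℝ) / ((Z.ld : ℝ) + Z.la l) := by
        field_simp
      rw [e, div_le_div_iff₀ hdenR (by linarith)]
      linarith
    · intro l' hl' hne
      rw [Finset.mem_range] at hl'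
      rw [if_neg (by omega), if_neg (by omega), sub_zero]
    · intro h
      exact absurd (Finset.mem_range.mpr hlL) h
  · -- outer slices
    obtain ⟨l, hl⟩ : ∃ l : ℕ, Z.J + k - 1 - l = v ∧ l < Z.J + k - Z.n0 :=
      ⟨Z.J + k - 1 - v, by omega, by omega⟩
    obtain ⟨hl, hlL⟩ := hl
    rw [Finset.sum_eq_single l]
    · rw [if_neg (by omega), if_pos (by omega), zero_sub]
      have h := hout l hlL
      rw [hl] at h
      obtain ⟨D, hD⟩ : ∃ D : ℕ, D = 2 * Z.n0 - (Z.J + k) + l := ⟨_, rfl⟩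
      obtain ⟨E, hE⟩ : ∃ E : ℕ, E = 4 * Z.n0 - (Z.J + k) + l + 1 := ⟨_, rfl⟩
      rw [← hD, ← hE] at h
      have hDR : (D : ℝ) = 2 * Z.n0 - (Z.J + k) + l := by
        have : (D : ℤ) = 2 * Z.n0 - (Z.J + k) + l := by omega
        exact_mod_cast this
      have hER : (E : ℝ) = 4 * Z.n0 - (Z.J + k) + l + 1 := by
        have : (E : ℤ) = 4 * Z.n0 - (Z.J + k) + l + 1 := by omega
        exact_mod_cast this
      have hDpos : (0 : ℝ) < D := by
        have : 0 < D := by omega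
        exact_mod_cast this
      have hEpos : (0 : ℝ) < E := by
        have : 0 < E := by omega
        exact_mod_cast this
      have hR : (Z.r v : ℝ) * ((Z.ld : ℝ) * D) ≤ - ((Z.den : ℝ) * Z.la l * E) := by
        exact_mod_cast h
      have hla : (0 : ℝ) ≤ Z.la l := Nat.cast_nonneg _
      have e4 : 4 - ((Z.J : ℝ) + k) / Z.n0 + ((l + 1 : ℕ) : ℝ) / Z.n0 = (E : ℝ) / Z.n0 := by
        rw [hER]
        push_cast
        field_simp
        ring
      have hvR : (v : ℝ) + 1 = (Z.J + k) - l := by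
        have : (v : ℤ) + 1 = (Z.J + k) - l := by omega
        exact_mod_cast this
      have e5 : (D : ℝ) / Z.n0 ≤ 2 - s := by
        have : s ≤ ((Z.J + k) - l) / Z.n0 := by rw [← hvR]; exact hs2
        have e6 : (D : ℝ) / Z.n0 = 2 - ((Z.J + k) - l : ℝ) / Z.n0 := by
          rw [hDR]
          field_simp
          ring
        rw [e6]
        linarith
      have hDn : (0 : ℝ) < (D : ℝ) / Z.n0 := div_pos hDpos hnR
      have h2s : 0 < 2 - s := lt_of_lt_of_le hDn e5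
      rw [e4]
      have e7 : ((E : ℝ) / Z.n0) / (2 - s) ≤ (E : ℝ) / D := by
        calc ((E : ℝ) / Z.n0) / (2 - s) ≤ ((E : ℝ) / Z.n0) / ((D : ℝ) / Z.n0) :=
              div_le_div_of_nonneg_left (div_pos hEpos hnR).le hDn e5
          _ = (E : ℝ) / D := by field_simp
      have e8 : (Z.la l : ℝ) / Z.ld * (((E : ℝ) / Z.n0) / (2 - s)) ≤
          (Z.la l : ℝ) / Z.ld * ((E : ℝ) / D) :=
        mul_le_mul_of_nonneg_left e7 (div_nonneg hla hldR.le)
      have e9 : (Z.r v : ℝ) / Z.den ≤ - ((Z.la l : ℝ) / Z.ld * ((E : ℝ) / D)) := by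
        rw [div_mul_div_comm, ← neg_div, div_le_div_iff₀ hdenR (mul_pos hldR hDpos)]
        linarith
      linarith
    · intro l' hl' hne
      rw [Finset.mem_range] at hl'
      rw [if_neg (by omega), if_neg (by omega), sub_zero]
    · intro h
      exact absurd (Finset.mem_range.mpr hlL) h

end MPb51559.BG.D
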