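import Pool.Agent.Work.MP_b51559_nt.BG.D.StmtsN

set_option autoImplicit false

/-!
# Item RhM: the density is measurable and bounded
-/

namespace MPb51559.BG.D

open Finset MeasureTheory Polynomial

theorem RhM_z (P : Sl) (hP : P.Ok) : ∀ l ≤ P.L, 0 ≤ P.z l := by
  intro l
  induction l with
  | zero => intro _; rw [hP.z0]
  | succ l ih =>
      intro hl
      exact (ih (by omega)).trans (hP.zmono l (by omega)).le

theorem prf_RhM : StRhM := by
  intro P hP
  classical
  constructor
  · unfold Sl.rho
    refine Measurable.ite measurableSet_Iic measurable_const ?_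
    refine Finset.measurable_sum _ fun l _ => ?_
    refine Measurable.sub ?_ ?_
    · refine Measurable.ite ?_ measurable_const measurable_const
      exact measurableSet_Ioc
    · refine Measurable.ite ?_ ?_ measurable_const
      · exact measurableSet_Ioc
      · exact measurable_const.mul (measurable_const.div (measurable_const.sub measurable_id))
  · have h2T : 0 < 2 - P.T := by linarith [hP.hT2]
    refine ⟨1 + ∑ l ∈ range P.L, (|P.Lam l / (1 + P.Lam l)| +
      |P.Lam l| * (|4 - P.T + P.z (l + 1)| / (2 - P.T))), fun s => ?_⟩
    have h0 : 0 ≤ ∑ l ∈ range P.L, (|P.Lam l / (1 + P.Lam l)| +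
        |P.Lam l| * (|4 - P.T + P.z (l + 1)| / (2 - P.T))) :=
      sum_nonneg fun l _ => by positivity
    unfold Sl.rho
    split_ifs with hs
    · rw [abs_one]
      linarith
    · have h1 : |∑ l ∈ range P.L,
          ((if 2 - P.T + P.z l < s ∧ s ≤ 2 - P.T + P.z (l + 1) then P.Lam l / (1 + P.Lam l) else 0) -
            (if P.T - P.z (l + 1) < s ∧ s ≤ P.T - P.z l then
              P.Lam l * ((4 - P.T + P.z (l + 1)) / (2 - s)) else 0))| ≤
          ∑ l ∈ range P.L, (|P.Lam l / (1 + P.Lam l)| +
            |P.Lam l| * (|4 - P.T + P.z (l + 1)| / (2 - P.T))) := by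
        refine (abs_sum_le_sum_abs _ _).trans (sum_le_sum fun l hl => ?_)
        rw [mem_range] at hl
        refine (abs_sub _ _).trans (add_le_add ?_ ?_)
        · split_ifs
          · exact le_rfl
          · rw [abs_zero]
            positivity
        · split_ifs with hc
          · have hz := RhM_z P hP l hl.le
            have hs2 : 2 - P.T ≤ 2 - s := by linarith [hc.2]
            rw [abs_mul, abs_div, abs_of_pos (lt_of_lt_of_le h2T hs2)]
            refine mul_le_mul_of_nonneg_left ?_ (abs_nonneg _)
            exact div_le_div_of_nonneg_left (abs_nonneg _) h2T hs2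
          · rw [abs_zero]
            positivity
      linarith

end MPb51559.BG.D
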