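import Pool.Agent.Work.MP_b51559_nt.BG.D.StmtsM

set_option autoImplicit false

namespace MPb51559.BG.D

open MeasureTheory

theorem prf_Spl : StSpl := by
  intro κ m Ψ
  set e := MeasurableEquiv.piFinSuccAbove (fun _ : Fin (κ + 1) => ℝ) m with he
  have hpres : MeasurePreserving e volume volume :=
    volume_preserving_piFinSuccAbove (fun _ : Fin (κ + 1) => ℝ) m
  have hA : MeasurableSet {t : Fin (κ + 1) → ℝ | 0 ≤ t m ∧ t m < 1} :=
    (measurableSet_le measurable_const (measurable_pi_apply m)).inter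
      (measurableSet_lt (measurable_pi_apply m) measurable_const)
  rw [← integral_indicator hA]
  have h1 : ∀ t : Fin (κ + 1) → ℝ, ({t : Fin (κ + 1) → ℝ | 0 ≤ t m ∧ t m < 1}).indicator
      (fun t => Ψ (fun j => t (m.succAbove j))) t =
      (fun p : ℝ × (Fin κ → ℝ) => (Set.Ico (0 : ℝ) 1).indicator (fun _ => (1 : ℝ)) p.1 * Ψ p.2) (e t) := by
    intro t
    show _ = (Set.Ico (0 : ℝ) 1).indicator (fun _ => (1 : ℝ)) (t m) * Ψ (fun j => t (m.succAbove j))
    by_cases ht : 0 ≤ t m ∧ t m < 1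
    · rw [Set.indicator_of_mem (show t ∈ {t : Fin (κ + 1) → ℝ | 0 ≤ t m ∧ t m < 1} from ht),
        Set.indicator_of_mem (show t m ∈ Set.Ico (0 : ℝ) 1 from ht), one_mul]
    · rw [Set.indicator_of_notMem (show t ∉ {t : Fin (κ + 1) → ℝ | 0 ≤ t m ∧ t m < 1} from ht),
        Set.indicator_of_notMem (show t m ∉ Set.Ico (0 : ℝ) 1 from ht), zero_mul]
  rw [integral_congr_ae (Filter.Eventually.of_forall h1),
    hpres.integral_comp e.measurableEmbedding
      (fun p : ℝ × (Fin κ → ℝ) => (Set.Ico (0 : ℝ) 1).indicator (fun _ => (1 : ℝ)) p.1 * Ψ p.2),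
    Measure.volume_eq_prod, integral_prod_mul, integral_indicator measurableSet_Ico,
    setIntegral_const, Real.volume_real_Ico, sub_zero, max_eq_left zero_le_one, one_smul, one_mul]

end MPb51559.BG.D
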