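import Pool.Agent.Work.MP_b51559_nt.BG.D.StmtsM

set_option autoImplicit false

/-! # Block BG, part D: step functions are finite sums of indicators of cells -/

namespace MPb51559.BG.D

open Finset MeasureTheory

theorem Stp_eq (hCel : StCel) (κ n0 M : ℕ) (hn : 0 < n0) (φ : (Fin κ → ℕ) → ℝ)
    (hφ : ∀ n : Fin κ → ℕ, n ∉ Fintype.piFinset (fun _ : Fin κ => range M) → φ n = 0) :
    stp n0 φ = fun t => ∑ n ∈ Fintype.piFinset (fun _ : Fin κ => range M),
      (cell n0 n).indicator (fun _ => φ n) t := by
  classical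
  funext t
  unfold stp
  by_cases hpos : ∀ i, 0 < t i
  · rw [if_pos hpos]
    set m : Fin κ → ℕ := fun i => idx n0 (t i) with hm
    have hmem : ∀ n : Fin κ → ℕ, t ∈ cell n0 n ↔ m = n := by
      intro n
      rw [(hCel κ n0 hn n).2.2 t]
      constructor
      · intro h
        exact h.2
      · intro h
        exact ⟨hpos, h⟩
    by_cases hmI : m ∈ Fintype.piFinset (fun _ : Fin κ => range M)
    · rw [Finset.sum_eq_single m]
      · rw [Set.indicator_of_mem ((hmem m).2 rfl)]
      · intro b _ hb
        rw [Set.indicator_of_notMem]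
        intro h
        exact hb ((hmem b).1 h).symm
      · intro h
        exact absurd hmI h
    · rw [hφ m hmI, Finset.sum_eq_zero]
      intro b hb
      rw [Set.indicator_of_notMem]
      intro h
      exact hmI (((hmem b).1 h) ▸ hb)
  · rw [if_neg hpos, Finset.sum_eq_zero]
    intro b _
    rw [Set.indicator_of_notMem]
    intro h
    exact hpos (((hCel κ n0 hn b).2.2 t).1 h).1

theorem prf_Stp (hCel : StCel) : StStp := by
  intro κ n0 M hn φ hφ
  have heq := Stp_eq hCel κ n0 M hn φ hφ
  have hvol : ∀ n : Fin κ → ℕ, volume.real (cell n0 n) = (1 / (n0 : ℝ)) ^ κ := by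
    intro n
    rw [Measure.real, (hCel κ n0 hn n).2.1]
    exact ENNReal.toReal_ofReal (by positivity)
  have hfin : ∀ n : Fin κ → ℕ, volume (cell n0 n) ≠ ⊤ := by
    intro n
    rw [(hCel κ n0 hn n).2.1]
    exact ENNReal.ofReal_ne_top
  have hint : ∀ n : Fin κ → ℕ, Integrable ((cell n0 n).indicator (fun _ => φ n)) := by
    intro n
    rw [integrable_indicator_iff (hCel κ n0 hn n).1]
    exact integrableOn_const (hfin n)
  refine ⟨heq, ?_, ?_, ?_⟩
  · rw [heq]
    exact Finset.measurable_sum _ (fun n _ => measurable_const.indicator (hCel κ n0 hn n).1)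
  · rw [heq]
    exact integrable_finsetSum _ (fun n _ => hint n)
  · rw [heq, integral_finsetSum _ (fun n _ => hint n), Finset.mul_sum]
    refine Finset.sum_congr rfl (fun n _ => ?_)
    rw [integral_indicator_const _ (hCel κ n0 hn n).1, hvol n, smul_eq_mul]

end MPb51559.BG.D
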