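import Pool.Agent.Work.MP_b51559_nt.BG.D.StmtsM

set_option autoImplicit false

namespace MPb51559.BG.D

open MeasureTheory

theorem TPI_zero (k : ℕ) (hk : 1 ≤ k) (b : ℝ) :
    ∫ x in (0 : ℝ)..b, (max x 0) ^ k = (max b 0) ^ (k + 1) / ((k : ℝ) + 1) := by
  rcases le_total 0 b with hb | hb
  · have h1 : ∫ x in (0 : ℝ)..b, (max x 0) ^ k = ∫ x in (0 : ℝ)..b, x ^ k := by
      refine intervalIntegral.integral_congr fun x hx => ?_
      rw [Set.uIcc_of_le hb] at hx
      show (max x 0) ^ k = x ^ k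
      rw [max_eq_left hx.1]
    rw [h1, integral_pow, max_eq_left hb]
    simp
  · have h1 : ∫ x in (0 : ℝ)..b, (max x 0) ^ k = ∫ x in (0 : ℝ)..b, (0 : ℝ) := by
      refine intervalIntegral.integral_congr fun x hx => ?_
      rw [Set.uIcc_of_ge hb] at hx
      show (max x 0) ^ k = 0
      rw [max_eq_right hx.2, zero_pow (by omega)]
    rw [h1, max_eq_right hb, zero_pow (by omega)]
    simp

theorem prf_TPI : StTPI := by
  intro k hk a
  have h1 : ∫ u in (0 : ℝ)..1, (max (a - u) 0) ^ k = ∫ x in (a - 1)..(a - 0), (max x 0) ^ k :=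
    intervalIntegral.integral_comp_sub_left (fun x => (max x 0) ^ k) a
  have hc : Continuous (fun x : ℝ => (max x 0) ^ k) := (continuous_id.max continuous_const).pow k
  rw [h1, sub_zero, ← intervalIntegral.integral_interval_sub_left (hc.intervalIntegrable 0 a)
    (hc.intervalIntegrable 0 (a - 1)), TPI_zero k hk, TPI_zero k hk]
  ring

end MPb51559.BG.D
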