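import Pool.Agent.Work.MP_b51559_nt.BG.D.StmtsM

set_option autoImplicit false

/-!
# Block BG, part D, item Tst: the test function is admissible
-/

namespace MPb51559.BG.D

open Finset MeasureTheory Polynomial

/-- a step function on the line as a finite sum of indicators -/
theorem Tst_line (h1 : StIdx) (n0 : ℕ) (hn0 : 0 < n0) (M : ℕ) (ψ : ℕ → ℝ)
    (hψ : ∀ e, M ≤ e → ψ e = 0) (s : ℝ) :
    (if 0 < s then ψ (idx n0 s) else 0) = ∑ i ∈ range M,
      (Set.Ioc ((i : ℝ) / n0) (((i : ℝ) + 1) / n0)).indicator (fun _ => ψ i) s := by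
  classical
  have hn : (0 : ℝ) < n0 := by exact_mod_cast hn0
  by_cases hs : 0 < s
  · rw [if_pos hs]
    have hmem : ∀ i : ℕ, s ∈ Set.Ioc ((i : ℝ) / n0) (((i : ℝ) + 1) / n0) ↔ idx n0 s = i := by
      intro i
      constructor
      · intro h
        exact ((h1 n0 hn0 s i).2 ⟨h.1, h.2⟩).2
      · intro h
        exact (h1 n0 hn0 s i).1 ⟨hs, h⟩
    have hterm : ∀ i ∈ range M,
        (Set.Ioc ((i : ℝ) / n0) (((i : ℝ) + 1) / n0)).indicator (fun _ => ψ i) s =
          if idx n0 s = i then ψ i else 0 := by
      intro i _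
      rw [Set.indicator_apply]
      by_cases h : idx n0 s = i
      · rw [if_pos ((hmem i).2 h), if_pos h]
      · rw [if_neg (fun hh => h ((hmem i).1 hh)), if_neg h]
    rw [Finset.sum_congr rfl hterm, Finset.sum_ite_eq]
    by_cases hM : idx n0 s < M
    · rw [if_pos (Finset.mem_range.2 hM)]
    · rw [if_neg (fun h => hM (Finset.mem_range.1 h))]
      exact hψ _ (not_lt.1 hM)
  · rw [if_neg hs]
    symm
    refine Finset.sum_eq_zero fun i _ => ?_
    refine Set.indicator_of_notMem ?_ _
    intro h
    have : (0 : ℝ) ≤ (i : ℝ) / n0 := by positivity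
    exact hs (lt_of_le_of_lt this h.1)

theorem prf_Tst : StTst := by
  intro h1 h2 h3 h4 Z hn0 k
  classical
  obtain ⟨h4a, h4b, B, hB⟩ := h4 Z k
  have hn : (0 : ℝ) < Z.n0 := by exact_mod_cast hn0
  have hφ : ∀ n : Fin k → ℕ, n ∉ Fintype.piFinset (fun _ : Fin k => range (Z.J + 1)) →
      (fun n : Fin k → ℕ => (Z.f n : ℝ)) n = 0 := by
    intro n hnn
    show (Z.f n : ℝ) = 0
    rw [h4b n hnn, Int.cast_zero]
  obtain ⟨_, hmeas, _, _⟩ := h2 k Z.n0 (Z.J + 1) hn0 (fun n => (Z.f n : ℝ)) hφ
  refine ⟨hmeas, ?_, ?_, ?_⟩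
  · intro t ht
    have hpos : ∀ i, 0 < t i := by
      by_contra hc
      apply ht
      show stp Z.n0 (fun n => (Z.f n : ℝ)) t = 0
      unfold stp
      rw [if_neg hc]
    have hne : Z.f (fun i => idx Z.n0 (t i)) ≠ 0 := by
      intro h0
      apply ht
      show stp Z.n0 (fun n => (Z.f n : ℝ)) t = 0
      unfold stp
      rw [if_pos hpos]
      show (Z.f (fun i => idx Z.n0 (t i)) : ℝ) = 0
      rw [h0, Int.cast_zero]
    have hsum := h4a _ hne
    refine ⟨fun i => (hpos i).le, ?_⟩
    have hle : ∀ i, t i ≤ ((idx Z.n0 (t i) : ℝ) + 1) / Z.n0 := fun i =>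
      ((h1 Z.n0 hn0 (t i) (idx Z.n0 (t i))).1 ⟨hpos i, rfl⟩).2
    have hsum' : ∑ i, (idx Z.n0 (t i) : ℝ) ≤ Z.J := by
      exact_mod_cast hsum
    calc ∑ i, t i ≤ ∑ i, ((idx Z.n0 (t i) : ℝ) + 1) / Z.n0 := Finset.sum_le_sum fun i _ => hle i
      _ = (∑ i, (idx Z.n0 (t i) : ℝ) + k) / Z.n0 := by
          rw [← Finset.sum_div, Finset.sum_add_distrib]
          simp
      _ ≤ ((Z.J : ℝ) + k) / Z.n0 := by gcongr
  · refine ⟨B, fun t => ?_⟩
    show |stp Z.n0 (fun n => (Z.f n : ℝ)) t| ≤ B
    unfold stp
    split_ifs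
    · exact hB _
    · rw [abs_zero]
      exact B.2
  · refine ⟨2 * ((Z.J + 1 : ℕ) : NNReal) * B, fun t i => ?_⟩
    by_cases hpos : ∀ j, j ≠ i → 0 < t j
    · set ψ : ℕ → ℝ := fun e => (Z.f (Function.update (fun j => idx Z.n0 (t j)) i e) : ℝ) with hψd
      have hψB : ∀ e, |ψ e| ≤ B := fun e => hB _
      have hψ0 : ∀ e, Z.J + 1 ≤ e → ψ e = 0 := by
        intro e he
        show (Z.f (Function.update (fun j => idx Z.n0 (t j)) i e) : ℝ) = 0
        rw [h4b, Int.cast_zero]
        intro hmem
        have := (Fintype.mem_piFinset.1 hmem) i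
        rw [Function.update_self, Finset.mem_range] at this
        omega
      have hfun : (fun s => Z.F k (Function.update t i s)) = fun s : ℝ =>
          ∑ e ∈ range (Z.J + 1),
            (Set.Ioc ((e : ℝ) / Z.n0) (((e : ℝ) + 1) / Z.n0)).indicator (fun _ => ψ e) s := by
        funext s
        rw [← Tst_line h1 Z.n0 hn0 (Z.J + 1) ψ hψ0 s]
        show stp Z.n0 (fun n => (Z.f n : ℝ)) (Function.update t i s) = _
        unfold stp
        by_cases hs : 0 < s
        · have hall : ∀ j, 0 < Function.update t i s j := by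
            intro j
            by_cases hj : j = i
            · subst hj
              rw [Function.update_self]
              exact hs
            · rw [Function.update_of_ne hj]
              exact hpos j hj
          rw [if_pos hall, if_pos hs]
          have hidx : (fun j => idx Z.n0 (Function.update t i s j)) =
              Function.update (fun j => idx Z.n0 (t j)) i (idx Z.n0 s) := by
            funext j
            by_cases hj : j = i
            · subst hj
              rw [Function.update_self, Function.update_self]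
            · rw [Function.update_of_ne hj, Function.update_of_ne hj]
          show (Z.f (fun j => idx Z.n0 (Function.update t i s j)) : ℝ) = ψ (idx Z.n0 s)
          rw [hidx]
        · have hnall : ¬ ∀ j, 0 < Function.update t i s j := by
            intro hall
            have := hall i
            rw [Function.update_self] at this
            exact hs this
          rw [if_neg hnall, if_neg hs]
      rw [hfun]
      exact h3 Z.n0 (Z.J + 1) B ψ hψB
    · have hfun : (fun s => Z.F k (Function.update t i s)) = fun _ : ℝ => (0 : ℝ) := by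
        funext s
        show stp Z.n0 (fun n => (Z.f n : ℝ)) (Function.update t i s) = 0
        unfold stp
        rw [if_neg]
        intro hall
        apply hpos
        intro j hj
        have := hall j
        rwa [Function.update_of_ne hj] at this
      rw [hfun]
      have h0 : eVariationOn (fun _ : ℝ => (0 : ℝ)) Set.univ = 0 := by
        refine eVariationOn.constant_on ?_
        rintro _ ⟨a, _, rfl⟩ _ ⟨b, _, rfl⟩
        rfl
      rw [h0]
      exact bot_le

end MPb51559.BG.D
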