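import Pool.Agent.Work.MP_b51559_nt.BG.D.StmtsM

set_option autoImplicit false

/-!
# Bounded gaps, part D, item Var: step functions on the line have bounded variation
-/

namespace MPb51559.BG.D

open Finset

theorem Var_core (F G : ℝ → ℝ) (K : ℝ)
    (hFG : ∀ x y, y ≤ x → |F x - F y| ≤ G x - G y) (h0 : ∀ x, 0 ≤ G x) (h1 : ∀ x, G x ≤ K) :
    eVariationOn F Set.univ ≤ ENNReal.ofReal K := by
  unfold eVariationOn
  apply iSup_le
  rintro ⟨n, u, hu, -⟩
  have hmono : ∀ i, u i ≤ u (i + 1) := fun i => hu (Nat.le_succ i)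
  calc ∑ i ∈ range n, edist (F (u (i + 1))) (F (u i))
      ≤ ∑ i ∈ range n, ENNReal.ofReal (G (u (i + 1)) - G (u i)) := by
        apply Finset.sum_le_sum
        intro i _
        rw [edist_dist, Real.dist_eq]
        exact ENNReal.ofReal_le_ofReal (hFG _ _ (hmono i))
    _ = ENNReal.ofReal (∑ i ∈ range n, (G (u (i + 1)) - G (u i))) := by
        rw [ENNReal.ofReal_sum_of_nonneg]
        intro i _
        exact le_trans (abs_nonneg _) (hFG _ _ (hmono i))
    _ = ENNReal.ofReal (G (u n) - G (u 0)) := by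
        rw [Finset.sum_range_sub (fun i => G (u i)) n]
    _ ≤ ENNReal.ofReal K := by
        apply ENNReal.ofReal_le_ofReal
        linarith [h0 (u 0), h1 (u n)]

/-- the step at `a` -/
noncomputable def Var_g (a s : ℝ) : ℝ := if a < s then 1 else 0

theorem Var_g_nonneg (a s : ℝ) : 0 ≤ Var_g a s := by
  unfold Var_g
  split_ifs <;> norm_num

theorem Var_g_le (a s : ℝ) : Var_g a s ≤ 1 := by
  unfold Var_g
  split_ifs <;> norm_num

theorem Var_g_mono (a x y : ℝ) (h : y ≤ x) : Var_g a y ≤ Var_g a x := by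
  unfold Var_g
  split_ifs with h1 h2
  · exact le_refl _
  · exact absurd (lt_of_lt_of_le h1 h) h2
  · norm_num
  · exact le_refl _

theorem Var_ind (a b c s : ℝ) (h : a ≤ b) :
    (Set.Ioc a b).indicator (fun _ => c) s = c * (Var_g a s - Var_g b s) := by
  unfold Var_g
  by_cases h1 : a < s
  · by_cases h2 : b < s
    · rw [Set.indicator_of_notMem (by simp [h2]), if_pos h1, if_pos h2]
      ring
    · have hs : s ∈ Set.Ioc a b := ⟨h1, not_lt.mp h2⟩
      rw [Set.indicator_of_mem hs, if_pos h1, if_neg h2]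
      ring
  · have h2 : ¬ b < s := fun h3 => h1 (lt_of_le_of_lt h h3)
    rw [Set.indicator_of_notMem (by simp [h1]), if_neg h1, if_neg h2]
    ring

theorem prf_Var : StVar := by
  intro n0 M B ψ hψ
  have hab : ∀ i : ℕ, (i : ℝ) / n0 ≤ ((i : ℝ) + 1) / n0 := by
    intro i
    apply div_le_div_of_nonneg_right _ (Nat.cast_nonneg _)
    linarith
  have key := Var_core (fun s : ℝ => ∑ i ∈ range M,
    (Set.Ioc ((i : ℝ) / n0) (((i : ℝ) + 1) / n0)).indicator (fun _ => ψ i) s)
    (fun s : ℝ => ∑ i ∈ range M, (B : ℝ) *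
      (Var_g ((i : ℝ) / n0) s + Var_g (((i : ℝ) + 1) / n0) s)) (2 * M * B) ?_ ?_ ?_
  · refine le_trans key (le_of_eq ?_)
    rw [ENNReal.ofReal, ← ENNReal.coe_inj.mpr]
    apply NNReal.coe_injective
    rw [Real.coe_toNNReal _ (by positivity)]
    push_cast
    ring
  · intro x y hxy
    have e : ∀ s : ℝ, (∑ i ∈ range M,
        (Set.Ioc ((i : ℝ) / n0) (((i : ℝ) + 1) / n0)).indicator (fun _ => ψ i) s) =
        ∑ i ∈ range M, ψ i * (Var_g ((i : ℝ) / n0) s - Var_g (((i : ℝ) + 1) / n0) s) := by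
      intro s
      exact Finset.sum_congr rfl (fun i _ => Var_ind _ _ _ _ (hab i))
    show |(∑ i ∈ range M,
        (Set.Ioc ((i : ℝ) / n0) (((i : ℝ) + 1) / n0)).indicator (fun _ => ψ i) x) -
        (∑ i ∈ range M,
        (Set.Ioc ((i : ℝ) / n0) (((i : ℝ) + 1) / n0)).indicator (fun _ => ψ i) y)| ≤ _
    rw [e x, e y, ← Finset.sum_sub_distrib, ← Finset.sum_sub_distrib]
    refine le_trans (Finset.abs_sum_le_sum_abs _ _) (Finset.sum_le_sum ?_)
    intro i _
    have h1 := Var_g_mono ((i : ℝ) / n0) x y hxy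
    have h2 := Var_g_mono (((i : ℝ) + 1) / n0) x y hxy
    set p := Var_g ((i : ℝ) / n0) x
    set q := Var_g (((i : ℝ) + 1) / n0) x
    set p' := Var_g ((i : ℝ) / n0) y
    set q' := Var_g (((i : ℝ) + 1) / n0) y
    have h3 : ψ i * (p - q) - ψ i * (p' - q') = ψ i * ((p - p') - (q - q')) := by ring
    have h4 : (B : ℝ) * (p + q) - B * (p' + q') = B * ((p - p') + (q - q')) := by ring
    rw [h3, h4, abs_mul]
    apply mul_le_mul (hψ i) _ (abs_nonneg _) B.2
    rw [abs_le]
    constructor <;> linarith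
  · intro x
    apply Finset.sum_nonneg
    intro i _
    exact mul_nonneg B.2 (add_nonneg (Var_g_nonneg _ _) (Var_g_nonneg _ _))
  · intro x
    calc (∑ i ∈ range M, (B : ℝ) *
        (Var_g ((i : ℝ) / n0) x + Var_g (((i : ℝ) + 1) / n0) x))
        ≤ ∑ i ∈ range M, (B : ℝ) * 2 := by
          apply Finset.sum_le_sum
          intro i _
          apply mul_le_mul_of_nonneg_left _ B.2
          linarith [Var_g_le ((i : ℝ) / n0) x, Var_g_le (((i : ℝ) + 1) / n0) x]
      _ = 2 * M * B := by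
          rw [Finset.sum_const, Finset.card_range, nsmul_eq_mul]
          ring

end MPb51559.BG.D
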