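import Pool.Agent.Work.MP_b51559_nt.BG.D.Bdf
import Pool.Agent.Work.MP_b51559_nt.BG.D.Cel
import Pool.Agent.Work.MP_b51559_nt.BG.D.Chg
import Pool.Agent.Work.MP_b51559_nt.BG.D.Cmb
import Pool.Agent.Work.MP_b51559_nt.BG.D.EulF
import Pool.Agent.Work.MP_b51559_nt.BG.D.I2
import Pool.Agent.Work.MP_b51559_nt.BG.D.IH1
import Pool.Agent.Work.MP_b51559_nt.BG.D.IHF
import Pool.Agent.Work.MP_b51559_nt.BG.D.IHr
import Pool.Agent.Work.MP_b51559_nt.BG.D.ISm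
import Pool.Agent.Work.MP_b51559_nt.BG.D.Idx
import Pool.Agent.Work.MP_b51559_nt.BG.D.JSm
import Pool.Agent.Work.MP_b51559_nt.BG.D.JmE
import Pool.Agent.Work.MP_b51559_nt.BG.D.Low
import Pool.Agent.Work.MP_b51559_nt.BG.D.Mrg
import Pool.Agent.Work.MP_b51559_nt.BG.D.NumD
import Pool.Agent.Work.MP_b51559_nt.BG.D.OkS
import Pool.Agent.Work.MP_b51559_nt.BG.D.RhC
import Pool.Agent.Work.MP_b51559_nt.BG.D.RhM
import Pool.Agent.Work.MP_b51559_nt.BG.D.Slb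
import Pool.Agent.Work.MP_b51559_nt.BG.D.Spl
import Pool.Agent.Work.MP_b51559_nt.BG.D.Stp
import Pool.Agent.Work.MP_b51559_nt.BG.D.TPI
import Pool.Agent.Work.MP_b51559_nt.BG.D.Tst
import Pool.Agent.Work.MP_b51559_nt.BG.D.Var

set_option autoImplicit false

/-!
# Block BG, part D: the measure side is complete
-/

namespace MPb51559.BG.D

/-- the numerics for `κ + 1` variables follow from a good certificate and the integer inequality -/
theorem num_of_dat (Z : Dat) (κ : ℕ) (hκ : 1 ≤ κ) (hG : Z.Good (κ + 1))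
    (h : 4 * (Z.n0 : ℤ) * (Z.den : ℤ) * (κ.factorial : ℤ) * Z.IS (κ + 1) <
      ((κ : ℤ) + 1) * Z.JS κ) : NUMk (κ + 1) :=
  prf_NumD prf_Idx (prf_Cel prf_Idx) (prf_Stp (prf_Cel prf_Idx)) prf_Chg prf_IHr prf_IH1 prf_TPI
    prf_IHF prf_EulF prf_Slb prf_Mrg prf_Spl prf_Cmb prf_ISm prf_JSm prf_Var prf_Bdf prf_Tst
    prf_Low prf_RhM prf_OkS prf_RhC prf_JmE prf_I2 Z κ hκ hG h

end MPb51559.BG.D
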