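import Pool.Agent.Work.MP_b51559_nt.BG.D.StmtsM

set_option autoImplicit false

/-!
# Block BG, part D, item Bdf: the values of the test function
-/

namespace MPb51559.BG.D

open Finset MeasureTheory Polynomial

theorem prf_Bdf : StBdf := by
  intro Z k
  have h1 : ∀ n : Fin k → ℕ, Z.f n ≠ 0 → ∑ i, n i ≤ Z.J := by
    intro n hn
    by_contra hc
    exact hn (by unfold Dat.f; rw [if_neg hc])
  have h2 : ∀ n : Fin k → ℕ, n ∉ Fintype.piFinset (fun _ : Fin k => range (Z.J + 1)) →
      Z.f n = 0 := by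
    intro n hn
    by_contra hc
    apply hn
    rw [Fintype.mem_piFinset]
    intro i
    rw [Finset.mem_range, Nat.lt_succ_iff]
    exact (Finset.single_le_sum (f := n) (fun _ _ => Nat.zero_le _) (Finset.mem_univ i)).trans
      (h1 n hc)
  refine ⟨h1, h2, ⟨∑ n ∈ Fintype.piFinset (fun _ : Fin k => range (Z.J + 1)), |(Z.f n : ℝ)|,
    Finset.sum_nonneg fun _ _ => abs_nonneg _⟩, ?_⟩
  intro n
  show |(Z.f n : ℝ)| ≤ ∑ n ∈ Fintype.piFinset (fun _ : Fin k => range (Z.J + 1)), |(Z.f n : ℝ)|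
  by_cases hn : n ∈ Fintype.piFinset (fun _ : Fin k => range (Z.J + 1))
  · exact Finset.single_le_sum (f := fun n : Fin k → ℕ => |(Z.f n : ℝ)|)
      (fun _ _ => abs_nonneg _) hn
  · rw [h2 n hn]
    simp only [Int.cast_zero, abs_zero]
    exact Finset.sum_nonneg fun _ _ => abs_nonneg _

end MPb51559.BG.D
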