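import Mathlib

set_option autoImplicit false

/-!
# Block BG, part D (numerics): the cell model, common definitions

`F(t) = f(n)` on the cell `n/n0 < t ≤ (n+1)/n0` (componentwise), and
`f(n) = sum over a of H a (n_1 + .. + n_k) * g a (n_1) * .. * g a (n_k)` for `n_1 + .. + n_k ≤ J`.
-/

namespace MPb51559.BG.D

open Finset MeasureTheory Polynomial

/-- the half open unit cube -/
def cube (κ : ℕ) : Set (Fin κ → ℝ) := Set.pi Set.univ (fun _ => Set.Ioc (0 : ℝ) 1)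

/-- the cell with index `n` -/
def cell {κ : ℕ} (n0 : ℕ) (n : Fin κ → ℕ) : Set (Fin κ → ℝ) :=
  Set.pi Set.univ (fun i => Set.Ioc ((n i : ℝ) / n0) (((n i : ℝ) + 1) / n0))

/-- the index of the cell of a positive real number -/
noncomputable def idx (n0 : ℕ) (x : ℝ) : ℕ := ⌈(n0 : ℝ) * x⌉₊ - 1

/-- the function which is `φ n` on the cell `n`, and zero if some coordinate is not positive -/
noncomputable def stp {κ : ℕ} (n0 : ℕ) (φ : (Fin κ → ℕ) → ℝ) (t : Fin κ → ℝ) : ℝ :=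
  open Classical in if ∀ i, 0 < t i then φ (fun i => idx n0 (t i)) else 0

/-- the distribution function of the sum of `κ` independent uniform variables -/
noncomputable def cdf (κ : ℕ) (y : ℝ) : ℝ := ∫ U in cube κ, if ∑ i, U i ≤ y then (1 : ℝ) else 0

/-- Eulerian numbers -/
def eul (κ u : ℕ) : ℤ :=
  ∑ i ∈ range (u + 1), (-1) ^ i * ((κ + 1).choose i : ℤ) * ((u : ℤ) + 1 - i) ^ κ

/-- the data of a certificate: cells of size `1/n0`, support `n_1 + .. + n_k ≤ J`, `A` products,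
the tables `g a`, `H a`, the multipliers `la l / ld` of the slices (one cell each), and the lower
bounds `r v / den` of the density on the cells -/
structure Dat where
  n0 : ℕ
  J : ℕ
  A : ℕ
  g : ℕ → ℕ → ℤ
  H : ℕ → ℕ → ℤ
  la : ℕ → ℕ
  ld : ℕ
  den : ℕ
  r : ℕ → ℤ

variable (Z : Dat)

/-- the values of the test function on the cells -/
def Dat.f {k : ℕ} (n : Fin k → ℕ) : ℤ :=
  if ∑ i, n i ≤ Z.J then ∑ a ∈ range Z.A, Z.H a (∑ i, n i) * ∏ i, Z.g a (n i) else 0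

/-- the test function -/
noncomputable def Dat.F (k : ℕ) : (Fin k → ℝ) → ℝ := stp Z.n0 (fun n => (Z.f n : ℝ))

/-- the one dimensional sums of the marginal -/
def Dat.W (a N : ℕ) : ℤ := ∑ j ∈ range (Z.J + 1 - N), Z.g a j * Z.H a (N + j)

/-- the values of `n0` times the marginal on the cells of the other variables -/
def Dat.G {κ : ℕ} (n : Fin κ → ℕ) : ℤ :=
  ∑ a ∈ range Z.A, Z.W a (∑ i, n i) * ∏ i, Z.g a (n i)

/-- the generating polynomials -/
noncomputable def Dat.P (a b : ℕ) : ℤ[X] :=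
  ∑ j ∈ range (Z.J + 1), C (Z.g a j * Z.g b j) * X ^ j

/-- the smoothed density (times `κ! * den`) -/
def Dat.R (κ N : ℕ) : ℤ := ∑ u ∈ range κ, eul κ u * Z.r (N + u)

/-- the discrete form of the integral of `F ^ 2` -/
noncomputable def Dat.IS (k : ℕ) : ℤ :=
  ∑ a ∈ range Z.A, ∑ b ∈ range Z.A, ∑ N ∈ range (Z.J + 1),
    Z.H a N * Z.H b N * ((Z.P a b) ^ k).coeff N

/-- the discrete form of the prime form -/
noncomputable def Dat.JS (κ : ℕ) : ℤ :=
  ∑ a ∈ range Z.A, ∑ b ∈ range Z.A, ∑ N ∈ range (Z.J + 1),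
    Z.R κ N * Z.W a N * Z.W b N * ((Z.P a b) ^ κ).coeff N

/-- the conditions on the data of a certificate for `k` variables, `T = (J + k)/n0`, apart from
the main inequality -/
structure Dat.Good (k : ℕ) : Prop where
  n0pos : 0 < Z.n0
  denpos : 0 < Z.den
  ldpos : 0 < Z.ld
  hT1 : Z.n0 < Z.J + k
  hT2 : Z.J + k < 2 * Z.n0
  lamm : ∀ l, l + 1 < Z.J + k - Z.n0 →
    Z.la (l + 1) * (4 * Z.n0 - (Z.J + k) + l + 2) ≤ Z.la l * (4 * Z.n0 - (Z.J + k) + l + 1)
  rcore : ∀ v < 2 * Z.n0 - (Z.J + k), Z.r v ≤ Z.den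
  rin : ∀ l < Z.J + k - Z.n0,
    Z.r (2 * Z.n0 - (Z.J + k) + l) * (Z.ld + Z.la l : ℕ) ≤ (Z.den * Z.la l : ℕ)
  rout : ∀ l < Z.J + k - Z.n0,
    Z.r (Z.J + k - 1 - l) * (Z.ld * (2 * Z.n0 - (Z.J + k) + l) : ℕ) ≤
      - (Z.den * Z.la l * (4 * Z.n0 - (Z.J + k) + l + 1) : ℕ)

end MPb51559.BG.D
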