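import Pool.Agent.Work.MP_b51559_nt.BG.D.StmtsM

set_option autoImplicit false

namespace MPb51559.BG.D

open Finset Polynomial

theorem prf_ISm : StISm := by
  intro h Z k
  have h1 : ∀ n : Fin k → ℕ, Z.f n ^ 2 = ∑ a ∈ range Z.A, ∑ b ∈ range Z.A,
      (if ∑ i, n i ≤ Z.J then Z.H a (∑ i, n i) * Z.H b (∑ i, n i) else 0) *
        ∏ i, (Z.g a (n i) * Z.g b (n i)) := by
    intro n
    unfold Dat.f
    by_cases hn : ∑ i, n i ≤ Z.J
    · simp only [if_pos hn]
      rw [sq, Finset.sum_mul_sum]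
      refine Finset.sum_congr rfl fun a _ => Finset.sum_congr rfl fun b _ => ?_
      rw [Finset.prod_mul_distrib]
      ring
    · simp only [if_neg hn]
      simp
  rw [Finset.sum_congr rfl fun n _ => h1 n, Finset.sum_comm]
  unfold Dat.IS
  refine Finset.sum_congr rfl fun a _ => ?_
  rw [Finset.sum_comm]
  refine Finset.sum_congr rfl fun b _ => ?_
  have h2 := h k (Z.J + 1) (Z.J + 1)
    (fun N => if N ≤ Z.J then Z.H a N * Z.H b N else 0) (fun j => Z.g a j * Z.g b j)
    (fun N hN => if_neg (by omega))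
  refine h2.trans ?_
  refine Finset.sum_congr rfl fun N hN => ?_
  rw [Finset.mem_range] at hN
  show (if N ≤ Z.J then Z.H a N * Z.H b N else 0) * _ = _
  rw [if_pos (by omega)]
  rfl

end MPb51559.BG.D
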