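import Mathlib

set_option autoImplicit false

/-!
# Block BG, part D: packed arithmetic for the kernel, generic lemmas
-/

namespace MPb51559.BG.D

open Finset Polynomial

/-- the digits in base `B` of a number below `B ^ (2 ^ d)`, lowest first -/
def upk (B : ℕ) : ℕ → ℕ → List ℕ
  | 0, x => [x]
  | d + 1, x => upk B d (x % B ^ (2 ^ d)) ++ upk B d (x / B ^ (2 ^ d))

/-- the number with the given digits -/
def pk (B : ℕ) : ℕ → List ℕ → ℕ
  | 0, l => l.headD 0
  | d + 1, l => pk B d l + B ^ (2 ^ d) * pk B d (l.drop (2 ^ d))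

theorem upk_length (B d x : ℕ) : (upk B d x).length = 2 ^ d := by
  induction d generalizing x with
  | zero => simp [upk]
  | succ d ih => simp [upk, ih]; ring

theorem upk_getD (B d x i : ℕ) (hB : 0 < B) (hx : x < B ^ (2 ^ d)) (hi : i < 2 ^ d) :
    (upk B d x).getD i 0 = x / B ^ i % B := by
  induction d generalizing x i with
  | zero =>
    simp only [pow_zero, pow_one] at hx hi
    interval_cases i
    simp [upk, Nat.mod_eq_of_lt hx]
  | succ d ih =>
    have hpos : 0 < B ^ 2 ^ d := Nat.pow_pos hB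
    have hx2 : x / B ^ 2 ^ d < B ^ 2 ^ d := by
      rw [Nat.div_lt_iff_lt_mul hpos, ← pow_add]
      have : 2 ^ d + 2 ^ d = 2 ^ (d + 1) := by ring
      rwa [this]
    by_cases h : i < 2 ^ d
    · rw [upk, List.getD_append _ _ _ _ (by rw [upk_length]; exact h),
        ih _ _ (Nat.mod_lt _ hpos) h]
      obtain ⟨e, he⟩ : ∃ e, 2 ^ d = i + (e + 1) := ⟨2 ^ d - i - 1, by omega⟩
      rw [he, pow_add, pow_add, pow_one, Nat.mod_mul_right_div_self,
        Nat.mod_mod_of_dvd _ (Dvd.intro_left _ rfl)]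
    · rw [upk, List.getD_append_right _ _ _ _ (by rw [upk_length]; omega), upk_length,
        ih _ _ hx2 (by rw [pow_succ] at hi; omega), Nat.div_div_eq_div_mul, ← pow_add]
      congr 3
      omega

theorem pk_eq (B d : ℕ) (l : List ℕ) :
    pk B d l = ∑ i ∈ range (2 ^ d), l.getD i 0 * B ^ i := by
  induction d generalizing l with
  | zero =>
    cases l <;> simp [pk]
  | succ d ih =>
    rw [pk, ih, ih]
    have : 2 ^ (d + 1) = 2 ^ d + 2 ^ d := by ring
    rw [this, Finset.sum_range_add, Finset.mul_sum]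
    congr 1
    refine Finset.sum_congr rfl fun i _ => ?_
    have h : (l.drop (2 ^ d)).getD i 0 = l.getD (2 ^ d + i) 0 := by
      simp [List.getD_eq_getElem?_getD, List.getElem?_drop]
    rw [h, pow_add]
    ring

theorem dig_lt (B : ℕ) (f : ℕ → ℕ) (n : ℕ) (hf : ∀ i < n, f i < B) :
    ∑ i ∈ range n, f i * B ^ i < B ^ n := by
  induction n with
  | zero => simp
  | succ n ih =>
    rw [Finset.sum_range_succ, pow_succ]
    have h1 := ih (fun i hi => hf i (by omega))
    have h2 : f n + 1 ≤ B := hf n (by omega)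
    nlinarith [Nat.mul_le_mul_right (B ^ n) h2]

theorem dig_get (B : ℕ) (f : ℕ → ℕ) (n j : ℕ) (hB : 0 < B) (hf : ∀ i < n, f i < B) (hj : j < n) :
    (∑ i ∈ range n, f i * B ^ i) / B ^ j % B = f j := by
  obtain ⟨e, rfl⟩ : ∃ e, n = j + (e + 1) := ⟨n - j - 1, by omega⟩
  rw [Finset.sum_range_add, Finset.sum_range_succ']
  have h1 : ∑ i ∈ range j, f i * B ^ i < B ^ j := dig_lt B f j (fun i hi => hf i (by omega))
  have h2 : ∑ i ∈ range e, f (j + (i + 1)) * B ^ (j + (i + 1)) + f (j + 0) * B ^ (j + 0) =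
      B ^ j * (f j + B * ∑ i ∈ range e, f (j + (i + 1)) * B ^ i) := by
    rw [Finset.mul_sum, mul_add, Finset.mul_sum, add_comm, add_zero]
    congr 1
    · ring
    · refine Finset.sum_congr rfl fun i _ => ?_
      rw [show j + (i + 1) = j + i + 1 by ring, pow_succ, pow_add]
      ring
  rw [h2, Nat.add_mul_div_left _ _ (Nat.pow_pos hB), Nat.div_eq_of_lt h1, zero_add,
    Nat.add_mul_mod_self_left, Nat.mod_eq_of_lt (hf j (by omega))]

/-- digits of a number reduced modulo a power of the base -/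
theorem dig_mod (B y N M : ℕ) (h : N < M) : y % B ^ M / B ^ N % B = y / B ^ N % B := by
  obtain ⟨e, rfl⟩ : ∃ e, M = N + (e + 1) := ⟨M - N - 1, by omega⟩
  rw [pow_add, pow_add, pow_one, Nat.mod_mul_right_div_self,
    Nat.mod_mod_of_dvd _ (Dvd.intro_left _ rfl)]

theorem coeff_le_eval_one (R : ℕ[X]) (i : ℕ) : R.coeff i ≤ R.eval 1 := by
  rw [Polynomial.eval_eq_sum_range]
  by_cases hi : i ∈ range (R.natDegree + 1)
  · calc R.coeff i = R.coeff i * 1 ^ i := by simp
      _ ≤ _ := Finset.single_le_sum (f := fun i => R.coeff i * 1 ^ i) (fun _ _ => Nat.zero_le _) hi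
  · rw [Polynomial.coeff_eq_zero_of_natDegree_lt (by simpa using hi)]
    exact Nat.zero_le _

theorem dig_poly (B : ℕ) (R : ℕ[X]) (N : ℕ) (hB : 0 < B) (h : R.eval 1 < B) :
    R.eval B / B ^ N % B = R.coeff N := by
  have h1 : R.eval B = ∑ i ∈ range (max R.natDegree N + 1), R.coeff i * B ^ i := by
    rw [Polynomial.eval_eq_sum_range' (lt_of_le_of_lt (le_max_left _ N) (Nat.lt_succ_self _))]
  rw [h1]
  exact dig_get B (fun i => R.coeff i) _ N hB
    (fun i _ => lt_of_le_of_lt (coeff_le_eval_one R i) h) (Nat.lt_succ_of_le (le_max_right _ _))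

/-- square modulo `m` -/
def sqm (m x : ℕ) : ℕ := x * x % m

/-- `x ^ 48` modulo `m` -/
def p48 (m x : ℕ) : ℕ := sqm m (sqm m (sqm m (sqm m (sqm m x * x % m))))

/-- `x ^ 49` modulo `m` -/
def p49 (m x : ℕ) : ℕ := p48 m x * x % m

theorem sqm_eq (m x a : ℕ) (h : x = a % m) : sqm m x = a ^ 2 % m := by
  rw [sqm, h, ← Nat.mul_mod, pow_two]

theorem p48_eq (m x : ℕ) : p48 m x = x ^ 48 % m := by
  have h1 : sqm m x * x % m = x ^ 3 % m := by
    rw [sqm, Nat.mod_mul_mod]
    congr 1
    ring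
  have h2 := sqm_eq m _ _ h1
  have h3 := sqm_eq m _ _ h2
  have h4 := sqm_eq m _ _ h3
  have h5 := sqm_eq m _ _ h4
  rw [p48, h5]
  congr 1
  ring

theorem p49_eq (m x : ℕ) : p49 m x = x ^ 49 % m := by
  rw [p49, p48_eq, Nat.mod_mul_mod]
  congr 1

/-- the coefficients of the power of a polynomial -/
theorem upk_pow (B d e N : ℕ) (Q : ℕ[X]) (x : ℕ) (hB : 0 < B) (hN : N < 2 ^ d) (hx : x = Q.eval B)
    (h1 : Q.eval 1 ^ e < B) :
    (upk B d (x ^ e % B ^ (2 ^ d))).getD N 0 = (Q ^ e).coeff N := by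
  rw [upk_getD B d _ N hB (Nat.mod_lt _ (Nat.pow_pos hB)) hN, dig_mod B _ N _ hN, hx,
    ← Polynomial.eval_pow]
  exact dig_poly B _ N hB (by rwa [Polynomial.eval_pow])

/-- correlation by one product -/
theorem corr (β J : ℕ) (u v : ℕ → ℕ) (N : ℕ) (hβ : 0 < β) (hN : N ≤ J)
    (hb : (∑ i ∈ range (J + 1), u i) * (∑ i ∈ range (J + 1), v i) < β) :
    (∑ i ∈ range (J + 1), u (J - i) * β ^ i) * (∑ i ∈ range (J + 1), v i * β ^ i) / β ^ J /
      β ^ N % β = ∑ j ∈ range (J + 1 - N), u j * v (N + j) := by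
  let U : ℕ[X] := ∑ i ∈ range (J + 1), C (u (J - i)) * X ^ i
  let V : ℕ[X] := ∑ i ∈ range (J + 1), C (v i) * X ^ i
  have hU : ∀ b : ℕ, U.eval b = ∑ i ∈ range (J + 1), u (J - i) * b ^ i := by
    intro b
    simp [U, Polynomial.eval_finsetSum]
  have hV : ∀ b : ℕ, V.eval b = ∑ i ∈ range (J + 1), v i * b ^ i := by
    intro b
    simp [V, Polynomial.eval_finsetSum]
  have hUc : ∀ i, U.coeff i = if i < J + 1 then u (J - i) else 0 := by
    intro i
    simp [U]
  have hVc : ∀ i, V.coeff i = if i < J + 1 then v i else 0 := by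
    intro i
    simp [V]
  have h1 : (U * V).eval 1 < β := by
    rw [Polynomial.eval_mul, hU, hV]
    have e1 : ∑ i ∈ range (J + 1), u (J - i) * 1 ^ i = ∑ i ∈ range (J + 1), u i := by
      rw [← Finset.sum_range_reflect]
      refine Finset.sum_congr rfl fun i hi => ?_
      rw [Finset.mem_range] at hi
      rw [one_pow, mul_one]
      congr 1
      omega
    have e2 : ∑ i ∈ range (J + 1), v i * 1 ^ i = ∑ i ∈ range (J + 1), v i :=
      Finset.sum_congr rfl fun i _ => by rw [one_pow, mul_one]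
    rw [e1, e2]
    exact hb
  rw [← hU, ← hV, ← Polynomial.eval_mul, Nat.div_div_eq_div_mul, ← pow_add,
    dig_poly β (U * V) (J + N) hβ h1, Polynomial.coeff_mul,
    Finset.Nat.sum_antidiagonal_eq_sum_range_succ_mk]
  -- sum over i ≤ J + N of U_i V_(J+N-i)
  simp only [hUc, hVc]
  have h2 : ∀ i ∈ range (J + N).succ, (if i < J + 1 then u (J - i) else 0) *
      (if J + N - i < J + 1 then v (J + N - i) else 0) =
      if N ≤ i ∧ i < J + 1 then u (J - i) * v (J + N - i) else 0 := by
    intro i hi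
    rw [Finset.mem_range] at hi
    by_cases a : i < J + 1
    · by_cases b : N ≤ i
      · rw [if_pos a, if_pos (by omega), if_pos ⟨b, a⟩]
      · rw [if_pos a, if_neg (by omega), if_neg (by omega), mul_zero]
    · rw [if_neg a, zero_mul, if_neg (fun h => a h.2)]
  rw [Finset.sum_congr rfl h2, ← Finset.sum_filter]
  symm
  refine Finset.sum_bij' (fun j _ => J - j) (fun i _ => J - i) ?_ ?_ ?_ ?_ ?_
  · intro j hj
    rw [Finset.mem_range] at hj
    simp only [Finset.mem_filter, Finset.mem_range]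
    omega
  · intro i hi
    simp only [Finset.mem_filter, Finset.mem_range] at hi
    rw [Finset.mem_range]
    omega
  · intro j hj
    rw [Finset.mem_range] at hj
    omega
  · intro i hi
    simp only [Finset.mem_filter, Finset.mem_range] at hi
    omega
  · intro j hj
    rw [Finset.mem_range] at hj
    have e1 : J - (J - j) = j := by omega
    have e2 : J + N - (J - j) = N + j := by omega
    rw [e1, e2]

end MPb51559.BG.D
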