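import Pool.Agent.Work.MP_b51559_nt.BG.D.K1
import Pool.Agent.Work.MP_b51559_nt.BG.D.Defs

set_option autoImplicit false

/-!
# Block BG, part D: from packed numbers to the sums IS and JS, for certificates with two products,
`J + 1 = 2 ^ 10` and `k = 49`
-/

namespace MPb51559.BG.D

open Finset Polynomial

/-- scalar product of lists -/
def dot : List ℤ → List ℤ → ℤ
  | a :: as, b :: bs => a * b + dot as bs
  | _, _ => 0

/-- sliding scalar products -/
def slide (E : List ℤ) : ℕ → List ℤ → List ℤ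
  | 0, _ => []
  | n + 1, l => dot E l :: slide E n l.tail

/-- triple scalar product -/
def dot3 : List ℤ → List ℤ → List ℕ → ℤ
  | a :: as, b :: bs, c :: cs => a * b * (c : ℤ) + dot3 as bs cs
  | _, _, _ => 0

theorem dot_eq (E l : List ℤ) : dot E l = ∑ u ∈ range E.length, E.getD u 0 * l.getD u 0 := by
  induction E generalizing l with
  | nil => simp [dot]
  | cons a as ih =>
    cases l with
    | nil => simp [dot]
    | cons b bs =>
      rw [dot, ih, List.length_cons, Finset.sum_range_succ']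
      simp [add_comm]

theorem slide_length (E : List ℤ) (n : ℕ) (l : List ℤ) : (slide E n l).length = n := by
  induction n generalizing l with
  | zero => simp [slide]
  | succ n ih => simp [slide, ih]

theorem slide_getD (E : List ℤ) (n : ℕ) (l : List ℤ) (N : ℕ) (hN : N < n) :
    (slide E n l).getD N 0 = ∑ u ∈ range E.length, E.getD u 0 * l.getD (N + u) 0 := by
  induction n generalizing l N with
  | zero => omega
  | succ n ih =>
    cases N with
    | zero => simp [slide, dot_eq]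
    | succ N =>
      rw [slide, List.getD_cons_succ, ih _ N (by omega)]
      refine Finset.sum_congr rfl fun u _ => ?_
      congr 1
      cases l with
      | nil => simp
      | cons b bs =>
        rw [List.tail_cons, show N + 1 + u = N + u + 1 by ring, List.getD_cons_succ]

theorem dot3_eq (X Y : List ℤ) (Z : List ℕ) : dot3 X Y Z =
    ∑ i ∈ range X.length, X.getD i 0 * Y.getD i 0 * ((Z.getD i 0 : ℕ) : ℤ) := by
  induction X generalizing Y Z with
  | nil => simp [dot3]
  | cons a as ih =>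
    cases Y with
    | nil => simp [dot3]
    | cons b bs =>
      cases Z with
      | nil => simp [dot3]
      | cons c cs =>
        rw [dot3, ih, List.length_cons, Finset.sum_range_succ']
        simp [add_comm]

theorem getD_map' {α β : Type} (f : α → β) (l : List α) (i : ℕ) (a : α) (b : β)
    (h : i < l.length) : (l.map f).getD i b = f (l.getD i a) := by
  rw [List.getD_eq_getElem _ _ (by simpa using h), List.getD_eq_getElem _ _ h, List.getElem_map]

theorem getD_zip' {α β γ : Type} (f : α → β → γ) (l : List α) (m : List β) (i : ℕ) (a : α) (b : β)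
    (c : γ) (h : i < l.length) (h' : i < m.length) :
    (List.zipWith f l m).getD i c = f (l.getD i a) (m.getD i b) := by
  rw [List.getD_eq_getElem _ _ (by simp [h, h']), List.getD_eq_getElem _ _ h,
    List.getD_eq_getElem _ _ h', List.getElem_zipWith]

theorem getD_rev' (l : List ℕ) (i n : ℕ) (h : l.length = n + 1) (hi : i ≤ n) :
    l.reverse.getD i 0 = l.getD (n - i) 0 := by
  rw [List.getD_eq_getElem _ _ (by simp; omega), List.getD_eq_getElem _ _ (by omega),
    List.getElem_reverse]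
  congr 1
  omega

/-- the base -/
def B49 : ℕ := 2 ^ 1344

/-- the base for the marginals -/
def b64 : ℕ := 2 ^ 64

/-- the table of `g` -/
def gL (G : ℕ) : List ℕ := upk 4096 10 G

/-- the table of `H`, shifted by 4096 -/
def hL (H : ℕ) : List ℕ := upk 8192 10 H

/-- the table of `H` -/
def HL (H : ℕ) : List ℤ := (hL H).map (fun x : ℕ => (x : ℤ) - 4096)

/-- the packed generating polynomial -/
def PL (G G' : ℕ) : ℕ := pk B49 10 (List.zipWith (fun x y => x * y) (gL G) (gL G'))

/-- the coefficients of the 48th power -/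
def c48 (G G' : ℕ) : List ℕ := upk B49 10 (p48 (B49 ^ (2 ^ 10)) (PL G G'))

/-- the coefficients of the 49th power -/
def c49 (G G' : ℕ) : List ℕ := upk B49 10 (p49 (B49 ^ (2 ^ 10)) (PL G G'))

/-- the marginals -/
def WL (G H : ℕ) : List ℤ := List.zipWith (fun (x y : ℕ) => (x : ℤ) - 4096 * (y : ℤ))
  (upk b64 10 (pk b64 10 (gL G).reverse * pk b64 10 (hL H) / b64 ^ 1023 % b64 ^ (2 ^ 10)))
  (upk b64 10 (pk b64 10 (gL G).reverse * pk b64 10 (List.replicate 1024 1) / b64 ^ 1023 %
    b64 ^ (2 ^ 10)))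

section
variable (G G' H H' : ℕ)

theorem gL_getD (hG : G < 4096 ^ (2 ^ 10)) (i : ℕ) (hi : i < 1024) :
    (gL G).getD i 0 = G / 4096 ^ i % 4096 :=
  upk_getD 4096 10 G i (by norm_num) hG hi

theorem gL_length : (gL G).length = 1024 := upk_length 4096 10 G

theorem hL_getD (hH : H < 8192 ^ (2 ^ 10)) (i : ℕ) (hi : i < 1024) :
    (hL H).getD i 0 = H / 8192 ^ i % 8192 :=
  upk_getD 8192 10 H i (by norm_num) hH hi

theorem hL_length : (hL H).length = 1024 := upk_length 8192 10 H

theorem HL_getD (hH : H < 8192 ^ (2 ^ 10)) (i : ℕ) (hi : i < 1024) :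
    (HL H).getD i 0 = ((H / 8192 ^ i % 8192 : ℕ) : ℤ) - 4096 := by
  rw [HL, getD_map' _ _ i 0 0 (by rw [hL_length]; exact hi), hL_getD H hH i hi]

/-- the generating polynomial over the natural numbers -/
noncomputable def QQ : ℕ[X] :=
  ∑ j ∈ range 1024, C ((G / 4096 ^ j % 4096) * (G' / 4096 ^ j % 4096)) * X ^ j

theorem QQ_eval (b : ℕ) : (QQ G G').eval b =
    ∑ j ∈ range 1024, ((G / 4096 ^ j % 4096) * (G' / 4096 ^ j % 4096)) * b ^ j := by
  simp [QQ, Polynomial.eval_finsetSum]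

theorem PL_eq (hG : G < 4096 ^ (2 ^ 10)) (hG' : G' < 4096 ^ (2 ^ 10)) :
    PL G G' = (QQ G G').eval B49 := by
  rw [PL, pk_eq, QQ_eval]
  refine Finset.sum_congr (by norm_num) fun i hi => ?_
  have hi' : i < 1024 := by simpa using hi
  rw [getD_zip' _ _ _ i 0 0 0 (by rw [gL_length]; exact hi') (by rw [gL_length]; exact hi'),
    gL_getD G hG i hi', gL_getD G' hG' i hi']

/-- the sum of the coefficients -/
def s1 : ℕ := (List.zipWith (fun x y => x * y) (gL G) (gL G')).sum

theorem s1_eq (hG : G < 4096 ^ (2 ^ 10)) (hG' : G' < 4096 ^ (2 ^ 10)) :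
    s1 G G' = (QQ G G').eval 1 := by
  rw [s1, QQ_eval]
  have h : ∀ l : List ℕ, l.sum = ∑ i ∈ range l.length, l.getD i 0 := by
    intro l
    induction l with
    | nil => simp
    | cons a l ih =>
      rw [List.sum_cons, ih, List.length_cons, Finset.sum_range_succ']
      simp [add_comm]
  rw [h]
  have hl : (List.zipWith (fun x y => x * y) (gL G) (gL G')).length = 1024 := by
    rw [List.length_zipWith, gL_length, gL_length, Nat.min_self]
  rw [hl]
  refine Finset.sum_congr rfl fun i hi => ?_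
  have hi' : i < 1024 := by simpa using hi
  rw [getD_zip' _ _ _ i 0 0 0 (by rw [gL_length]; exact hi') (by rw [gL_length]; exact hi'),
    gL_getD G hG i hi', gL_getD G' hG' i hi', one_pow, mul_one]

theorem c48_getD (hG : G < 4096 ^ (2 ^ 10)) (hG' : G' < 4096 ^ (2 ^ 10)) (h1 : s1 G G' ^ 48 < B49)
    (N : ℕ) (hN : N < 1024) : (c48 G G').getD N 0 = (QQ G G' ^ 48).coeff N := by
  rw [c48, p48_eq]
  exact upk_pow B49 10 48 N (QQ G G') _ (by unfold B49; positivity) hN
    (PL_eq G G' hG hG') (by rw [← s1_eq G G' hG hG']; exact h1)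

theorem c49_getD (hG : G < 4096 ^ (2 ^ 10)) (hG' : G' < 4096 ^ (2 ^ 10)) (h1 : s1 G G' ^ 49 < B49)
    (N : ℕ) (hN : N < 1024) : (c49 G G').getD N 0 = (QQ G G' ^ 49).coeff N := by
  rw [c49, p49_eq]
  exact upk_pow B49 10 49 N (QQ G G') _ (by unfold B49; positivity) hN
    (PL_eq G G' hG hG') (by rw [← s1_eq G G' hG hG']; exact h1)

theorem WL_getD (hG : G < 4096 ^ (2 ^ 10)) (hH : H < 8192 ^ (2 ^ 10)) (N : ℕ) (hN : N < 1024) :
    (WL G H).getD N 0 = ∑ j ∈ range (1024 - N), ((G / 4096 ^ j % 4096 : ℕ) : ℤ) *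
      (((H / 8192 ^ (N + j) % 8192 : ℕ) : ℤ) - 4096) := by
  have hb0 : 0 < b64 := by unfold b64; positivity
  have hbig : (1024 * 4096) * (1024 * 8192) < b64 := by unfold b64; norm_num
  -- the reversed table of g
  have hg : pk b64 10 (gL G).reverse =
      ∑ i ∈ range (1023 + 1), (G / 4096 ^ (1023 - i) % 4096) * b64 ^ i := by
    rw [pk_eq]
    refine Finset.sum_congr (by norm_num) fun i hi => ?_
    have hi' : i < 1024 := by simpa using hi
    rw [getD_rev' _ i 1023 (gL_length G) (by omega), gL_getD G hG _ (by omega)]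
  have hh : pk b64 10 (hL H) =
      ∑ i ∈ range (1023 + 1), (H / 8192 ^ i % 8192) * b64 ^ i := by
    rw [pk_eq]
    refine Finset.sum_congr (by norm_num) fun i hi => ?_
    have hi' : i < 1024 := by simpa using hi
    rw [hL_getD H hH _ (by omega)]
  have ho : pk b64 10 (List.replicate 1024 1) =
      ∑ i ∈ range (1023 + 1), (fun _ : ℕ => 1) i * b64 ^ i := by
    rw [pk_eq]
    refine Finset.sum_congr (by norm_num) fun i hi => ?_
    have hi' : i < 1024 := by simpa using hi
    rw [List.getD_replicate _ hi']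
  have hsg : ∑ i ∈ range (1023 + 1), (G / 4096 ^ i % 4096) ≤ 1024 * 4096 := by
    calc _ ≤ ∑ i ∈ range (1023 + 1), 4096 :=
          Finset.sum_le_sum fun i _ => (Nat.mod_lt _ (by norm_num)).le
      _ = 1024 * 4096 := by simp
  have hsh : ∑ i ∈ range (1023 + 1), (H / 8192 ^ i % 8192) ≤ 1024 * 8192 := by
    calc _ ≤ ∑ i ∈ range (1023 + 1), 8192 :=
          Finset.sum_le_sum fun i _ => (Nat.mod_lt _ (by norm_num)).le
      _ = 1024 * 8192 := by simp
  have hso : ∑ i ∈ range (1023 + 1), (fun _ : ℕ => 1) i ≤ 1024 * 8192 := by simp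
  have c1 := corr b64 1023 (fun j => G / 4096 ^ j % 4096) (fun j => H / 8192 ^ j % 8192) N hb0
    (by omega) (lt_of_le_of_lt (Nat.mul_le_mul hsg hsh) hbig)
  have c2 := corr b64 1023 (fun j => G / 4096 ^ j % 4096) (fun _ => 1) N hb0
    (by omega) (lt_of_le_of_lt (Nat.mul_le_mul hsg hso) hbig)
  have key : ∀ x : ℕ, (upk b64 10 (x % b64 ^ (2 ^ 10))).getD N 0 = x / b64 ^ N % b64 := by
    intro x
    rw [upk_getD b64 10 _ N hb0 (Nat.mod_lt _ (Nat.pow_pos hb0)) hN, dig_mod b64 x N (2 ^ 10) hN]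
  have hlen : ∀ x : ℕ, N < (upk b64 10 x).length := by
    intro x
    rw [upk_length]
    exact hN
  rw [WL, getD_zip' _ _ _ N 0 0 0 (hlen _) (hlen _), key, key, hg, hh, ho, c1, c2]
  push_cast
  rw [Finset.mul_sum, ← Finset.sum_sub_distrib]
  refine Finset.sum_congr rfl fun j _ => ?_
  ring

end

/-- the form of the certificates -/
structure Dat.Frm (Z : Dat) (GG HH : ℕ → ℕ) : Prop where
  hJ : Z.J = 1023
  hA : Z.A = 2
  hg : ∀ a j, Z.g a j = ((GG a / 4096 ^ j % 4096 : ℕ) : ℤ)
  hH : ∀ a N, Z.H a N = ((HH a / 8192 ^ N % 8192 : ℕ) : ℤ) - 4096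
  bg : ∀ a < 2, GG a < 4096 ^ (2 ^ 10)
  bh : ∀ a < 2, HH a < 8192 ^ (2 ^ 10)
  bs : ∀ a < 2, ∀ b < 2, s1 (GG a) (GG b) ^ 49 < B49

theorem Dat.Frm.P_eq {Z : Dat} {GG HH : ℕ → ℕ} (F : Z.Frm GG HH) (a b : ℕ) :
    Z.P a b = (QQ (GG a) (GG b)).map (Nat.castRingHom ℤ) := by
  rw [Dat.P, F.hJ, QQ, Polynomial.map_sum]
  refine Finset.sum_congr rfl fun j _ => ?_
  rw [F.hg, F.hg, Polynomial.map_mul, Polynomial.map_C, Polynomial.map_pow, Polynomial.map_X]
  simp

theorem Dat.Frm.coeff_eq {Z : Dat} {GG HH : ℕ → ℕ} (F : Z.Frm GG HH) (a b k N : ℕ) :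
    (Z.P a b ^ k).coeff N = (((QQ (GG a) (GG b) ^ k).coeff N : ℕ) : ℤ) := by
  rw [F.P_eq, ← Polynomial.map_pow, Polynomial.coeff_map]
  rfl

theorem HL_length (H : ℕ) : (HL H).length = 1024 := by rw [HL, List.length_map, hL_length]

theorem WL_length (G H : ℕ) : (WL G H).length = 1024 := by
  rw [WL, List.length_zipWith, upk_length, upk_length]
  rfl

theorem Dat.Frm.IS_eq {Z : Dat} {GG HH : ℕ → ℕ} (F : Z.Frm GG HH) :
    Z.IS 49 = ∑ a ∈ range 2, ∑ b ∈ range 2,
      dot3 (HL (HH a)) (HL (HH b)) (c49 (GG a) (GG b)) := by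
  rw [Dat.IS, F.hA]
  refine Finset.sum_congr rfl fun a ha => Finset.sum_congr rfl fun b hb => ?_
  rw [Finset.mem_range] at ha hb
  rw [dot3_eq, HL_length, F.hJ]
  refine Finset.sum_congr rfl fun N hN => ?_
  have hN' : N < 1024 := by simpa using hN
  rw [F.hH, F.hH, F.coeff_eq, HL_getD _ (F.bh a ha) N hN', HL_getD _ (F.bh b hb) N hN',
    c49_getD _ _ (F.bg a ha) (F.bg b hb) (F.bs a ha b hb) N hN']

theorem Dat.Frm.JS_eq {Z : Dat} {GG HH : ℕ → ℕ} (F : Z.Frm GG HH) (R : List ℤ)
    (hR : R.length = 1024) (hR' : ∀ N < 1024, R.getD N 0 = Z.R 48 N)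
    (hs : ∀ a < 2, ∀ b < 2, s1 (GG a) (GG b) ^ 48 < B49) :
    Z.JS 48 = ∑ a ∈ range 2, ∑ b ∈ range 2,
      dot3 (List.zipWith (fun x y => x * y) R (WL (GG a) (HH a))) (WL (GG b) (HH b))
        (c48 (GG a) (GG b)) := by
  have hW : ∀ a < 2, ∀ N < 1024, (WL (GG a) (HH a)).getD N 0 = Z.W a N := by
    intro a ha N hN
    rw [WL_getD _ _ (F.bg a ha) (F.bh a ha) N hN, Dat.W, F.hJ]
    refine Finset.sum_congr rfl fun j _ => ?_
    rw [F.hg, F.hH]
  rw [Dat.JS, F.hA]
  refine Finset.sum_congr rfl fun a ha => Finset.sum_congr rfl fun b hb => ?_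
  rw [Finset.mem_range] at ha hb
  have hl : (List.zipWith (fun x y => x * y) R (WL (GG a) (HH a))).length = 1024 := by
    rw [List.length_zipWith, hR, WL_length]
    rfl
  rw [dot3_eq, hl, F.hJ]
  refine Finset.sum_congr rfl fun N hN => ?_
  have hN' : N < 1024 := by simpa using hN
  rw [F.coeff_eq, getD_zip' _ _ _ N 0 0 0 (by rw [hR]; exact hN') (by rw [WL_length]; exact hN'),
    hR' N hN', hW a ha N hN', hW b hb N hN',
    c48_getD _ _ (F.bg a ha) (F.bg b hb) (hs a ha b hb) N hN']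

end MPb51559.BG.D
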