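import Pool.Agent.Work.MP_b51559_nt.BG.D.Z49a

set_option autoImplicit false
set_option maxRecDepth 100000
set_option exponentiation.threshold 20000

/-!
# Block BG, part D: the main inequality of the certificate for `k = 49` (kernel computation)
-/

namespace MPb51559.BG.D

open Finset Polynomial

/-- the sum IS, computable -/
def IS49 : ℤ := ∑ a ∈ range 2, ∑ b ∈ range 2,
  dot3 (HL (H49 a)) (HL (H49 b)) (c49 (G49 a) (G49 b))

/-- the sum JS, computable -/
def JS49 : ℤ := ∑ a ∈ range 2, ∑ b ∈ range 2,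
  dot3 (List.zipWith (fun x y => x * y) RL49 (WL (G49 a) (H49 a))) (WL (G49 b) (H49 b))
    (c48 (G49 a) (G49 b))

theorem Z49_chk : 4 * (990 : ℤ) * 4096 * (Nat.factorial 48 : ℤ) * IS49 < 49 * JS49 := by
  decide +kernel

theorem Z49_ineq : 4 * (Z49.n0 : ℤ) * (Z49.den : ℤ) * (Nat.factorial 48 : ℤ) * Z49.IS 49 <
    ((48 : ℤ) + 1) * Z49.JS 48 := by
  have h1 : Z49.IS 49 = IS49 := Z49_frm.IS_eq
  have h2 : Z49.JS 48 = JS49 := Z49_frm.JS_eq RL49 (slide_length _ _ _)
    (fun N hN => Z49_R N hN) s48_lt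
  rw [h1, h2]
  exact Z49_chk

end MPb51559.BG.D
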