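import Pool.Agent.Work.MP_b51559_nt.BG.D.AllM
import Pool.Agent.Work.MP_b51559_nt.BG.D.Z49b

set_option autoImplicit false

/-!
# Block BG, part D: the numerics for `k = 49`, no hypotheses

WHY 49 WORKS. In the sieve of Maynard and Tao with the epsilon enlargement of Polymath 8b the test
function `F` lives on `t_1 + .. + t_k ≤ 1 + ε`, and the prime form of its marginal `G` is known only
between layers `s`, `r` (values of the sum of the other variables) with `s + r ≤ 2`, where different
layers are orthogonal. Polymath 8b counts the core `s ≤ 1 - ε` and drops all other layers: the
functional `M_(k, ε)`; it exceeds 4 for `k = 50` (4.0043, gap 246), and for `k = 49` its value is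
about 3.988 (our computation), so 49 is out of reach of that functional.

HERE the layers `1 - ε + y` are kept. Such a layer has an unknown correlation only with the outer
layers `1 + ε - y'`, `y' < y` (causality), and the outer layers have total mass at most
`4 / (2 - r)` times the expected one by Selberg's upper bound sieve for the prime coordinate; the
same bound for combinations of inner and outer layers improves the constant `K = 4/(2-r)` to
`K (K' - 1)/K' = (2 + s)/(2 - r)`. For nonincreasing multipliers the prime form is at least the
integral of `rho (s) G ^ 2`, `rho = 1` on the core, `Λ/(1+Λ)` on the inner layers and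
`- Λ (4 - T + z)/(2 - s)` on the outer ones (`Sl.rho` in BG/Defs; `T = 1 + ε`). This functional is
about 4.005 for `k = 49` (and 3.986 for `k = 48`).

THE CERTIFICATE (Z49): cells of size `1/990`, `T = 1072/990`, 82 slices of one cell,
`F = sum over a = 0, 1 of H_a(n_1 + .. + n_49) g_a(n_1) .. g_a(n_49)` with the cell indices `n_i`;
`g_a` are rounded multiples of `exp(-q_a t^2)/(c + t)`. So the criterion becomes an inequality
between two integers, sums over the coefficients of the 48th and 49th powers of polynomials of
degree 1023; the exact value of the functional is 4.00262 > 4. The powers are computed in the kernel
by one big number each (Kronecker substitution with base `2 ^ 1344`).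
-/

namespace MPb51559.BG.D

theorem num49 : NUM := num_of_dat Z49 48 (by norm_num) Z49_good Z49_ineq

end MPb51559.BG.D
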