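import Pool.Agent.Work.MP_b51559_nt.BG.D.StmtsM

set_option autoImplicit false

/-!
# Item Slb: integrals over the cube of functions of the sum, from below by slabs
-/

namespace MPb51559.BG.D

open Finset MeasureTheory Polynomial

theorem Slb_meas (κ : ℕ) : MeasurableSet (cube κ) :=
  MeasurableSet.univ_pi (fun _ => measurableSet_Ioc)

theorem Slb_vol (κ : ℕ) : volume (cube κ) = 1 := by
  unfold cube
  rw [Real.volume_pi_Ioc]
  simp

theorem Slb_int (κ : ℕ) (y : ℝ) :
    IntegrableOn (fun U : Fin κ → ℝ => if ∑ i, U i ≤ y then (1 : ℝ) else 0) (cube κ) := by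
  have hm : Measurable (fun U : Fin κ → ℝ => if ∑ i, U i ≤ y then (1 : ℝ) else 0) := by
    apply Measurable.ite _ measurable_const measurable_const
    exact measurableSet_le (by fun_prop) measurable_const
  refine Measure.integrableOn_of_bounded (M := 1) ?_ hm.aestronglyMeasurable ?_
  · rw [Slb_vol]
    exact ENNReal.one_ne_top
  · filter_upwards with U
    split_ifs <;> simp

theorem prf_Slb : StSlb := by
  intro hE κ hκ hF h q hi hq
  have hI := Slb_int κ
  have hd : ∀ u : ℕ, cdf κ ((u : ℝ) + 1) - cdf κ u =
      ∫ U in cube κ, ((if ∑ i, U i ≤ (u : ℝ) + 1 then (1 : ℝ) else 0) -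
        (if ∑ i, U i ≤ (u : ℝ) then (1 : ℝ) else 0)) := by
    intro u
    rw [integral_sub (hI _) (hI _)]
    rfl
  have hg : ∀ u : ℕ, IntegrableOn (fun U : Fin κ → ℝ => q u *
      ((if ∑ i, U i ≤ (u : ℝ) + 1 then (1 : ℝ) else 0) -
        (if ∑ i, U i ≤ (u : ℝ) then (1 : ℝ) else 0))) (cube κ) := by
    intro u
    exact ((hI _).sub (hI _)).const_mul _
  calc ∑ u ∈ range κ, q u * ((eul κ u : ℝ) / (κ.factorial : ℝ))
      = ∑ u ∈ range κ, q u * (cdf κ ((u : ℝ) + 1) - cdf κ u) := by
        apply Finset.sum_congr rfl
        intro u hu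
        rw [hF, hF, ← mul_sub, hE κ u hκ (mem_range.mp hu)]
        ring
    _ = ∫ U in cube κ, ∑ u ∈ range κ, q u *
          ((if ∑ i, U i ≤ (u : ℝ) + 1 then (1 : ℝ) else 0) -
            (if ∑ i, U i ≤ (u : ℝ) then (1 : ℝ) else 0)) := by
        rw [integral_finsetSum _ (fun u _ => hg u)]
        apply Finset.sum_congr rfl
        intro u _
        rw [integral_const_mul, hd u]
    _ ≤ ∫ U in cube κ, h (∑ i, U i) := by
        apply setIntegral_mono_on _ hi (Slb_meas κ)
        · intro U hU
          unfold cube at hU
          rw [Set.mem_univ_pi] at hU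
          obtain ⟨s, hs⟩ : ∃ s : ℝ, s = ∑ i, U i := ⟨_, rfl⟩
          rw [← hs]
          have hne : (Finset.univ : Finset (Fin κ)).Nonempty := ⟨⟨0, hκ⟩, Finset.mem_univ _⟩
          have hs0 : 0 < s := by
            rw [hs]
            exact Finset.sum_pos (fun i _ => (hU i).1) hne
          have hs1 : s ≤ κ := by
            rw [hs]
            calc ∑ i, U i ≤ ∑ _i : Fin κ, (1 : ℝ) := Finset.sum_le_sum (fun i _ => (hU i).2)
              _ = κ := by simp
          obtain ⟨v, hv1, hv2⟩ : ∃ v : ℕ, (v : ℝ) < s ∧ s ≤ v + 1 := by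
            refine ⟨⌈s⌉₊ - 1, ?_, ?_⟩
            · have h1 : 1 ≤ ⌈s⌉₊ := Nat.one_le_iff_ne_zero.mpr (by
                have := Nat.ceil_pos.mpr hs0
                omega)
              rw [Nat.cast_sub h1]
              have := Nat.ceil_lt_add_one hs0.le
              push_cast
              linarith
            · have h1 : 1 ≤ ⌈s⌉₊ := Nat.one_le_iff_ne_zero.mpr (by
                have := Nat.ceil_pos.mpr hs0
                omega)
              rw [Nat.cast_sub h1]
              have := Nat.le_ceil s
              push_cast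
              linarith
          have hvκ : v < κ := by
            have : (v : ℝ) < κ := lt_of_lt_of_le hv1 hs1
            exact_mod_cast this
          rw [Finset.sum_eq_single v]
          · rw [if_pos hv2, if_neg (not_le.mpr hv1)]
            have := hq v hvκ s hv1 hv2
            linarith
          · intro u _ huv
            rcases lt_or_gt_of_ne huv with h1 | h1
            · have h2 : (u : ℝ) + 1 ≤ v := by exact_mod_cast h1
              rw [if_neg (by linarith), if_neg (by linarith)]
              ring
            · have h2 : (v : ℝ) + 1 ≤ u := by exact_mod_cast h1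
              rw [if_pos (by linarith), if_pos (by linarith)]
              ring
          · intro hv
            exact absurd (mem_range.mpr hvκ) hv
        · exact integrable_finsetSum _ (fun u _ => hg u)

end MPb51559.BG.D
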