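import Pool.Agent.Work.MP_b51559_nt.BG.Defs
import Pool.Agent.Work.MP_b51559_nt.BG.D.Defs

set_option autoImplicit false

/-!
# Block BG, part D: the measure side (cells, marginals, Irwin Hall numbers, sums over simplices)

Every docstring is the complete proof. Notation: `c = 1/n0`, `idx n0 x = ⌈n0 x⌉₊ - 1`,
`I(M)` = `Fintype.piFinset (fun _ => range M)`, the functions `Fin κ → ℕ` with all values `< M`.
-/

namespace MPb51559.BG.D

open Finset MeasureTheory Polynomial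

/-! ## A. Cells -/

/-- [Idx] `0 < x` and `⌈n0 x⌉₊ - 1 = n` iff `n/n0 < x ≤ (n+1)/n0`.
PROOF. Both sides imply `0 < x` (right: `n/n0 ≥ 0`). For `x > 0` we have `n0 x > 0`, so
`⌈n0 x⌉₊ ≥ 1` (`Nat.ceil_pos`), and `⌈n0 x⌉₊ - 1 = n` iff `⌈n0 x⌉₊ = n + 1` iff
`n < n0 x ∧ n0 x ≤ n + 1` (`Nat.ceil_eq_iff` with `n + 1 ≠ 0`); divide by `n0` (`div_lt_iff₀`,
`le_div_iff₀`). -/
def StIdx : Prop := ∀ (n0 : ℕ), 0 < n0 → ∀ (x : ℝ) (n : ℕ),
  (0 < x ∧ idx n0 x = n) ↔ ((n : ℝ) / n0 < x ∧ x ≤ ((n : ℝ) + 1) / n0)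

/-- [Cel] cells are measurable, of volume `n0^(-κ)`, and `t` is in the cell `n` iff all coordinates
are positive and the indices are `n`.
PROOF. `cell` is a `Set.pi` of intervals `Ioc`: `MeasurableSet.univ_pi` with `measurableSet_Ioc`;
`Real.volume_pi_Ioc` (or `volume_pi_pi` and `Real.volume_Ioc`): the product over `i` of
`ofReal ((n i + 1)/n0 - n i/n0) = ofReal (1/n0)`, `Finset.prod_const`, `ENNReal.ofReal_pow`.
The last part is `hI` (StIdx) in every coordinate, `funext_iff`. -/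
def StCel : Prop := ∀ (κ n0 : ℕ), 0 < n0 → ∀ (n : Fin κ → ℕ),
  MeasurableSet (cell n0 n) ∧ (volume (cell n0 n)) = ENNReal.ofReal ((1 / (n0 : ℝ)) ^ κ) ∧
  ∀ t : Fin κ → ℝ, t ∈ cell n0 n ↔ (∀ i, 0 < t i) ∧ (fun i => idx n0 (t i)) = n

/-- [Stp] a step function with finitely many cells is a finite sum of indicators of cells; it is
measurable and integrable and its integral is `n0^(-κ)` times the sum of the values.
PROOF (h : StCel). Fix `t`. If all coordinates are positive, `t` is in exactly one cell, the one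
with index `m = idx n0 (t i)`; if `m ∈ I(M)` the sum has the single term `φ m`
(`Finset.sum_eq_single`), otherwise all terms vanish and `φ m = 0` by hypothesis. If some coordinate
is not positive, `t` is in no cell and both sides are 0. Then: measurable as a finite sum of
indicators of measurable sets times constants; integrable since the volumes are finite; the integral
is `sum φ n * volume.real (cell n)` (`integral_finset_sum`, `integral_indicator_const` or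
`integral_indicator`). -/
def StStp : Prop := ∀ (κ n0 M : ℕ), 0 < n0 → ∀ (φ : (Fin κ → ℕ) → ℝ),
  (∀ n : Fin κ → ℕ, n ∉ Fintype.piFinset (fun _ : Fin κ => range M) → φ n = 0) →
  (stp n0 φ = fun t => ∑ n ∈ Fintype.piFinset (fun _ : Fin κ => range M),
    (cell n0 n).indicator (fun _ => φ n) t) ∧
  Measurable (stp n0 φ) ∧ Integrable (stp n0 φ) ∧
  ∫ t, stp n0 φ t = (1 / (n0 : ℝ)) ^ κ *
    ∑ n ∈ Fintype.piFinset (fun _ : Fin κ => range M), φ n

/-- [Chg] change of variables from a cell to the cube, for functions of the sum.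
PROOF. Let `E = Fin κ → ℝ`, `f t = (cell n0 n).indicator (fun t => h (∑ i, t i)) t` and
`c = 1/n0 > 0`. `integral_indicator` (cells are measurable: `MeasurableSet.univ_pi`), so the left
side is `∫ f`. `Measure.integral_comp_smul volume f c : ∫ f (c • x) = |(c ^ finrank ℝ E)⁻¹| • ∫ f`,
`finrank ℝ E = κ` (`Module.finrank_fin_fun`); and translation
`integral_add_right_eq_self (fun x => f (c • x)) (fun i => (n i : ℝ))`. So
`∫ f = c^κ ∫ f (c • (U + n)) dU`, and `c • (U + n)` is in the cell `n` iff `0 < U i ≤ 1` for all `i`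
(`c (U + n) > n/n0` iff `U > 0`, and so on), that is iff `U ∈ cube κ`; the value is
`h (∑ c (U i + n i)) = h ((∑ n i + ∑ U i)/n0)`. -/
def StChg : Prop := ∀ (κ n0 : ℕ), 0 < n0 → ∀ (n : Fin κ → ℕ) (h : ℝ → ℝ),
  ∫ t in cell n0 n, h (∑ i, t i) = (1 / (n0 : ℝ)) ^ κ *
    ∫ U in cube κ, h ((((∑ i, n i : ℕ) : ℝ) + ∑ i, U i) / n0)

/-! ## B. Irwin Hall numbers -/

/-- [IHr] the recursion of the distribution function.
PROOF. `cdf (κ+1) y = ∫ 1[U ∈ cube (κ+1)] 1[∑ U ≤ y]`. The measurable equivalence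
`MeasurableEquiv.piFinSuccAbove (fun _ => ℝ) 0` preserves the volume
(`volume_preserving_piFinSuccAbove`), `U ↦ (U 0, fun j => U j.succ)`; `Fin.sum_univ_succ`;
`U ∈ cube (κ+1)` iff `U 0 ∈ Ioc 0 1` and the tail is in `cube κ` (`Fin.forall_fin_succ`). Fubini
(`integral_prod`, the function is bounded, measurable and supported on a set of finite volume), and
`intervalIntegral.integral_of_le`. -/
def StIHr : Prop := ∀ (κ : ℕ) (y : ℝ), cdf (κ + 1) y = ∫ u in (0 : ℝ)..1, cdf κ (y - u)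

/-- [IH1] `cdf 1 y = max y 0 - max (y - 1) 0`.
PROOF. By `StIHr` (h) with `κ = 0` and `cdf 0 y = 1[0 ≤ y]` (the space `Fin 0 → ℝ` has one point,
volume 1, it is in `cube 0`; `∑ = 0`): `∫ u in 0..1, 1[0 ≤ y - u] = min (max y 0) 1`. Or directly:
`cdf 1 y = volume (Ioc 0 1 ∩ Iic y)`. Cases `y ≤ 0`, `0 ≤ y ≤ 1`, `1 ≤ y`. -/
def StIH1 : Prop := StIHr → ∀ y : ℝ, cdf 1 y = max y 0 - max (y - 1) 0

/-- [TPI] the integral of a truncated power.
PROOF. `x ↦ (max x 0)^(k+1)/(k+1)` has the derivative `(max x 0)^k` everywhere for `k ≥ 1` (for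
`x > 0` and `x < 0` clear; at 0 the difference quotient is `0` or `x^k/(k+1) → 0`), and
`u ↦ - (max (a - u) 0)^(k+1)/(k+1)` has the derivative `(max (a - u) 0)^k`, continuous, so
`intervalIntegral.integral_eq_sub_of_hasDerivAt`. (Other way: cases `a ≤ 0`, `a ≥ 1`, `0 ≤ a ≤ 1`,
in the last case split the interval at `a`; `integral_pow`.) -/
def StTPI : Prop := ∀ (k : ℕ), 1 ≤ k → ∀ a : ℝ,
  ∫ u in (0 : ℝ)..1, (max (a - u) 0) ^ k =
    ((max a 0) ^ (k + 1) - (max (a - 1) 0) ^ (k + 1)) / ((k : ℝ) + 1)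

/-- [IHF] the formula of Irwin and Hall.
PROOF. Induction on `κ ≥ 1` (`Nat.le_induction`). `κ = 1`: h1 (StIH1 h0), `range 2`.
Step: by h0 (StIHr) `cdf (κ+1) y = ∫ u in 0..1, cdf κ (y - u)
= (1/κ!) ∑_j (-1)^j C(κ,j) ∫ (max (y - u - j) 0)^κ du` (`intervalIntegral.integral_finset_sum`,
continuity), by h2 (StTPI) with `a = y - j` this is
`(1/(κ+1)!) ∑_{j ≤ κ} (-1)^j C(κ,j) ((max (y-j) 0)^(κ+1) - (max (y-j-1) 0)^(κ+1))`; shift the second
sum by one and use `C(κ,j) + C(κ,j-1) = C(κ+1,j)` (`Finset.sum_range_succ'`,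
`Finset.sum_range_succ`, `Nat.choose_succ_succ`; the terms with `C(κ,κ+1) = 0`). -/
def StIHF : Prop := StIHr → StIH1 → StTPI → ∀ (κ : ℕ), 1 ≤ κ → ∀ y : ℝ,
  cdf κ y = (1 / (κ.factorial : ℝ)) *
    ∑ j ∈ range (κ + 1), (-1) ^ j * (κ.choose j : ℝ) * (max (y - j) 0) ^ κ

/-- [EulF] the Irwin Hall formula at integers gives the Eulerian numbers.
PROOF. Put `S y = ∑_{j ≤ κ} (-1)^j C(κ,j) (max (y - j) 0)^κ`. For `y = u + 1`, `u < κ`, the terms
`j ≥ u + 1` vanish (`κ ≥ 1`), so `S (u+1) = ∑_{j ≤ u} (-1)^j C(κ,j) (u+1-j)^κ`, and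
`S u = ∑_{j < u} (-1)^j C(κ,j) (u-j)^κ = - ∑_{1 ≤ i ≤ u} (-1)^i C(κ,i-1) (u+1-i)^κ` (`i = j + 1`).
So `S (u+1) - S u = ∑_{i ≤ u} (-1)^i (C(κ,i) + C(κ,i-1)) (u+1-i)^κ = eul κ u` (Pascal). -/
def StEulF : Prop := ∀ (κ u : ℕ), 1 ≤ κ → u < κ →
  (∑ j ∈ range (κ + 1), (-1) ^ j * (κ.choose j : ℝ) * (max (((u : ℝ) + 1) - j) 0) ^ κ) -
  (∑ j ∈ range (κ + 1), (-1) ^ j * (κ.choose j : ℝ) * (max ((u : ℝ) - j) 0) ^ κ) = (eul κ u : ℝ)

/-- [Slb] integrals over the cube of functions of the sum, from below by slabs.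
PROOF. (h : the formula StIHF applied, i.e. `hF : ∀ y, cdf κ y = ...` and `hE : StEulF`.)
On the cube `0 < ∑ U ≤ κ` (`κ ≥ 1`), so there is exactly one `u < κ` with `u < ∑ U ≤ u + 1`
(`u = ⌈∑ U⌉₊ - 1`), and there `q u ≤ h (∑ U)`. So
`∫ h (∑ U) ≥ ∫ ∑_{u<κ} q u * 1[u < ∑ U ≤ u+1] = ∑_{u<κ} q u * (cdf κ (u+1) - cdf κ u)`
(`setIntegral_mono_on`, `cube` measurable of volume 1, both functions bounded and measurable:
the left one is integrable by hypothesis `hi`; `1[u < s ≤ u+1] = 1[s ≤ u+1] - 1[s ≤ u]`). The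
difference of `cdf` is `eul κ u / κ!`. -/
def StSlb : Prop := StEulF → ∀ (κ : ℕ), 1 ≤ κ →
  (∀ y : ℝ, cdf κ y = (1 / (κ.factorial : ℝ)) *
    ∑ j ∈ range (κ + 1), (-1) ^ j * (κ.choose j : ℝ) * (max (y - j) 0) ^ κ) →
  ∀ (h : ℝ → ℝ) (q : ℕ → ℝ), IntegrableOn (fun U : Fin κ → ℝ => h (∑ i, U i)) (cube κ) →
  (∀ u < κ, ∀ s : ℝ, (u : ℝ) < s → s ≤ u + 1 → q u ≤ h s) →
  ∑ u ∈ range κ, q u * ((eul κ u : ℝ) / (κ.factorial : ℝ)) ≤ ∫ U in cube κ, h (∑ i, U i)

/-! ## C. Marginals -/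

/-- [Mrg] the marginal of `F`.
PROOF. (h : StIdx.) `F (update t m s)`: all coordinates are positive iff `0 < s` and
`0 < t (m.succAbove j)` for all `j` (`Fin.forall_iff_succAbove m`, `Function.update_self`,
`Function.update_of_ne (Fin.succAbove_ne m j)`). If some `t (m.succAbove j) ≤ 0` the integrand is 0.
Otherwise, with `n' j = idx n0 (t (m.succAbove j))`, the index vector of `update t m s` is `i = idx
n0 s` at `m` and `n'` at the others; `Fin.sum_univ_succAbove`, `Fin.prod_univ_succAbove`: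
`Z.f = if i + ∑ n' ≤ J then ∑_a H a (i + ∑ n') * (g a i * ∏ g a (n' j)) else 0 =: ψ i`. The function
`s ↦ if 0 < s then ψ (idx n0 s) else 0` is `∑_{i ≤ J} ψ i * indicator (Ioc (i/n0) ((i+1)/n0))` (by
`h`; `ψ i = 0` for `i > J`), with integral `(1/n0) ∑_{i ≤ J} ψ i`, and
`∑_{i < J + 1} ψ i = ∑_{i < J + 1 - ∑ n'} ... = Z.G n'` (if `∑ n' > J` both are 0; exchange the
two sums). -/
def StMrg : Prop := StIdx → ∀ (Z : Dat), 0 < Z.n0 → ∀ (κ : ℕ) (m : Fin (κ + 1))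
  (t : Fin (κ + 1) → ℝ),
  marg (Z.F (κ + 1)) m t = (1 / (Z.n0 : ℝ)) *
    stp Z.n0 (fun n : Fin κ → ℕ => (Z.G n : ℝ)) (fun j => t (m.succAbove j))

/-- [Spl] integration of a function which does not depend on the coordinate `m`.
PROOF. `MeasurableEquiv.piFinSuccAbove (fun _ => ℝ) m` preserves the volume
(`volume_preserving_piFinSuccAbove`), it maps `t` to `(t m, fun j => t (m.succAbove j))`. So with
`setIntegral` written as the integral of the indicator of `{t | 0 ≤ t m ∧ t m < 1}` the left side is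
`∫ (x, s) in ℝ × (Fin κ → ℝ), 1[x ∈ Ico 0 1] * Ψ s`, and `integral_prod_mul` (no integrability
needed) gives `(∫ 1[x ∈ Ico 0 1]) * ∫ Ψ = ∫ Ψ`. -/
def StSpl : Prop := ∀ (κ : ℕ) (m : Fin (κ + 1)) (Ψ : (Fin κ → ℝ) → ℝ),
  ∫ t in {t : Fin (κ + 1) → ℝ | 0 ≤ t m ∧ t m < 1}, Ψ (fun j => t (m.succAbove j)) = ∫ s, Ψ s

/-! ## D. Sums over simplices -/

/-- [Cmb] sums over tuples with a weight depending on the sum are coefficients of a power.
PROOF. Induction on `k`, for all `w` (no condition on `w` outside is needed except `hw`). Or: the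
coefficient of `X^N` in `Q^k = ∏_{i : Fin k} Q`, `Q = ∑_{j<M} C (q j) X^j`:
`Finset.prod_univ_sum` gives `Q^k = ∑_{n ∈ I(M)} ∏_i C (q (n i)) X^(n i)
= ∑_{n ∈ I(M)} C (∏ q (n i)) * X^(∑ n i)` (`Finset.prod_const`, `Finset.card_univ`,
`Finset.prod_mul_distrib`, `Finset.prod_pow_eq_pow_sum`), so
`coeff N = ∑_{n ∈ I(M)} if ∑ n = N then ∏ q (n i) else 0` (`coeff_C_mul_X_pow`). Sum over `N < M'`
with `w N`, exchange, `Finset.sum_ite_eq`: only `n` with `∑ n < M'` remain, and for the others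
`w (∑ n) = 0` by `hw`. -/
def StCmb : Prop := ∀ (k M M' : ℕ) (w q : ℕ → ℤ), (∀ N, M' ≤ N → w N = 0) →
  ∑ n ∈ Fintype.piFinset (fun _ : Fin k => range M), w (∑ i, n i) * ∏ i, q (n i) =
  ∑ N ∈ range M', w N * ((∑ j ∈ range M, C (q j) * X ^ j : ℤ[X]) ^ k).coeff N

/-- [ISm] the sum of the squares of `f`.
PROOF (h : StCmb). For every `n`: `f n ^ 2 = ∑_{a,b<A} w_ab (∑ n) * ∏ (g a (n i) * g b (n i))`, with
`w_ab N = if N ≤ J then H a N * H b N else 0` (`Finset.sum_mul_sum`, `Finset.prod_mul_distrib`).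
Exchange the sums and use `h` with `M = M' = J + 1`, `q j = g a j * g b j`; for `N < J + 1` the
condition `N ≤ J` holds. -/
def StISm : Prop := StCmb → ∀ (Z : Dat) (k : ℕ),
  ∑ n ∈ Fintype.piFinset (fun _ : Fin k => range (Z.J + 1)), Z.f n ^ 2 = Z.IS k

/-- [JSm] the sum of the squares of `G` with the weight `R`.
PROOF (h : StCmb). `W a N = 0` for `N > J` (empty range), so `w_ab N = R κ N * W a N * W b N`
vanishes for `N ≥ J + 1`; `G n ^ 2 * R (∑ n) = ∑_{a,b<A} w_ab (∑ n) * ∏ (g a (n i) * g b (n i))`.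
Exchange the sums and use `h`. -/
def StJSm : Prop := StCmb → ∀ (Z : Dat) (κ : ℕ),
  ∑ n ∈ Fintype.piFinset (fun _ : Fin κ => range (Z.J + 1)), Z.R κ (∑ i, n i) * Z.G n ^ 2 = Z.JS κ

/-! ## E. The test function is admissible -/

/-- [Var] a step function on the line with finitely many cells has bounded variation.
PROOF. For `a ≤ b` and a real `c` the function `c * 1_(Ioc a b)` has variation `≤ 2 |c|` on the
line: in a sum `∑ edist (f (u (i+1))) (f (u i))` along a monotone sequence `u` at most two terms are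
not zero, each `≤ |c|` (or write `1_(Ioc a b) = 1_(Ioi a) - 1_(Ioi b)`, monotone functions with
values in `[0,1]`: the sum telescopes). The variation of a finite sum is at most the sum of the
variations (`edist_add_add_le` in every term, induction on the finite set). So `V = ∑_{i<M} 2 |ψ i|`,
which is `≤ 2 M B`. -/
def StVar : Prop := ∀ (n0 M : ℕ) (B : NNReal), ∀ (ψ : ℕ → ℝ), (∀ i, |ψ i| ≤ B) →
  eVariationOn (fun s : ℝ => ∑ i ∈ range M,
    (Set.Ioc ((i : ℝ) / n0) (((i : ℝ) + 1) / n0)).indicator (fun _ => ψ i) s) Set.univ ≤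
  ((2 * M * B : NNReal) : ENNReal)

/-- [Bdf] `f` is bounded and vanishes outside the simplex.
PROOF. `f n = 0` unless `∑ n ≤ J`, and then all `n i ≤ J` (`Finset.single_le_sum`), so
`n ∈ I(J+1)`, a finite set: take `B` = the sum of `|f n|` over `I(J+1)`
(`Finset.single_le_sum`). -/
def StBdf : Prop := ∀ (Z : Dat) (k : ℕ),
  (∀ n : Fin k → ℕ, Z.f n ≠ 0 → ∑ i, n i ≤ Z.J) ∧
  (∀ n : Fin k → ℕ, n ∉ Fintype.piFinset (fun _ : Fin k => range (Z.J + 1)) → Z.f n = 0) ∧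
  ∃ B : NNReal, ∀ n : Fin k → ℕ, |(Z.f n : ℝ)| ≤ B

/-- [Tst] the test function is admissible.
PROOF (h1 : StIdx, h2 : StStp, h3 : StVar, h4 : StBdf; `StStp` itself is used with its conclusion).
Measurable: `h2` with `M = J + 1` and `h4`. Support: if `F t ≠ 0` then all `t i > 0` and
`f (idx n0 (t i)) ≠ 0`, so `∑ idx n0 (t i) ≤ J` by `h4`, and `t i ≤ (idx n0 (t i) + 1)/n0` by `h1`,
so `∑ t i ≤ (J + k)/n0`. Bounded: `h4`. Sections: fix `t`, `i`. If some `t j ≤ 0`, `j ≠ i`, the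
section is 0 (variation 0: `eVariationOn.constant_on` or subsingleton image). Otherwise
`F (update t i s) = if 0 < s then ψ (idx n0 s) else 0` with `ψ e = f (update (idx n0 ∘ t) i e)`,
which is `∑_{e < J+1} indicator (Ioc (e/n0) ((e+1)/n0)) (ψ e)` by `h1` and `h4`, and `|ψ| ≤ B`: `h3`.
`V = 2 (J+1) B`. -/
def StTst : Prop := StIdx → StStp → StVar → StBdf → ∀ (Z : Dat), 0 < Z.n0 → ∀ (k : ℕ),
  Tst k (((Z.J : ℝ) + k) / Z.n0) (Z.F k)

/-! ## F. The prime form from below -/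

/-- [Low] the prime form of a step function from below.
PROOF (h1 : StCel, h2 : StStp, h3 : StChg, h4 = `hS` the slab inequality). With `c = 1/n0`, the
integrand is `ρ (∑ t) * stp (G) t ^ 2 = ∑_{n ∈ I(M)} indicator (cell n) (ρ (∑ t) * G n ^ 2)` (`h2`
for `φ = G n ^ 2`, `stp φ = (stp G)^2`), a finite sum of integrable functions (`ρ` bounded and
measurable, cells of finite volume), so the integral is
`∑_n G n ^ 2 * ∫ t in cell n, ρ (∑ t) = ∑_n G n ^ 2 * c^κ * ∫ U in cube, ρ ((N + ∑ U)/n0)` with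
`N = ∑ n` (`h3`). By the slab inequality with `h s = ρ ((N + s)/n0)`, `q u = r (N + u)/den`:
for `u < s ≤ u + 1`: `(N+u)/n0 < (N+s)/n0 ≤ (N+u+1)/n0`, so `r (N+u)/den ≤ ρ` by `hr` (if
`G n ≠ 0`, then `N < M`, so `N + u < M + κ`; if `G n = 0` the term is 0). Hence
`∫ ρ ≥ ∑_u r (N+u)/den * eul κ u/κ! = R κ N/(den κ!)`. -/
def StLow : Prop := StCel → StStp → StChg → ∀ (κ n0 M den : ℕ), 0 < n0 → 0 < den →
  (∀ (h : ℝ → ℝ) (q : ℕ → ℝ), IntegrableOn (fun U : Fin κ → ℝ => h (∑ i, U i)) (cube κ) →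
    (∀ u < κ, ∀ s : ℝ, (u : ℝ) < s → s ≤ u + 1 → q u ≤ h s) →
    ∑ u ∈ range κ, q u * ((eul κ u : ℝ) / (κ.factorial : ℝ)) ≤ ∫ U in cube κ, h (∑ i, U i)) →
  ∀ (ρ : ℝ → ℝ) (r : ℕ → ℤ) (G : (Fin κ → ℕ) → ℝ), Measurable ρ → (∃ K : ℝ, ∀ s, |ρ s| ≤ K) →
  (∀ v < M + κ, ∀ s : ℝ, (v : ℝ) / n0 < s → s ≤ ((v : ℝ) + 1) / n0 → (r v : ℝ) / den ≤ ρ s) →
  (∀ n : Fin κ → ℕ, M ≤ ∑ i, n i → G n = 0) →
  (1 / (n0 : ℝ)) ^ κ * (∑ n ∈ Fintype.piFinset (fun _ : Fin κ => range M),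
    ((∑ u ∈ range κ, eul κ u * r ((∑ i, n i) + u) : ℤ) : ℝ) * G n ^ 2) /
      ((den : ℝ) * (κ.factorial : ℝ)) ≤
  ∫ t : Fin κ → ℝ, ρ (∑ i, t i) * stp n0 G t ^ 2

end MPb51559.BG.D
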