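import Pool.Agent.Work.MP_b51559_nt.BG.D.StmtsM

set_option autoImplicit false

/-!
# Block BG, part D: the density, the slices, and the reduction of NUM to an integer inequality

Every docstring is the complete proof. `Tn = J + k`, `T = Tn/n0`, `L = Tn - n0`.
-/

namespace MPb51559.BG.D

open Finset MeasureTheory Polynomial

/-- the slices of a certificate for `k` variables: one cell each -/
noncomputable def Dat.sl (Z : Dat) (k : ℕ) : Sl where
  T := ((Z.J : ℝ) + k) / Z.n0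
  L := Z.J + k - Z.n0
  z := fun l => (l : ℝ) / Z.n0
  Lam := fun l => (Z.la l : ℝ) / Z.ld

/-- [RhM] the density is measurable and bounded.
PROOF. Measurable: `Measurable.ite` with the measurable sets `{s | s ≤ 2 - T}` and the half open
intervals, a finite sum (`Finset.measurable_sum`), and `s ↦ c / (2 - s)` measurable. Bounded: by `z0`
and `zmono`, `0 ≤ z l` for `l ≤ L`. A term of the sum is at most
`|Lam l / (1 + Lam l)| + |Lam l| * |4 - T + z (l+1)| / (2 - T)`, since in the outer slice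
`s ≤ T - z l ≤ T < 2`, so `2 - s ≥ 2 - T > 0`. Take `K = 1 + ∑_{l<L}` of these bounds
(`Finset.abs_sum_le_sum_abs`). -/
def StRhM : Prop := ∀ (P : Sl), P.Ok → Measurable P.rho ∧ ∃ K : ℝ, ∀ s, |P.rho s| ≤ K

/-- [OkS] the slices are admissible.
PROOF. `T = (J + k)/n0 > 1`, `< 2` by `hT1`, `hT2`; `z 0 = 0`; `z l < z (l+1)` (`div_lt_div_iff`);
`z L = (J + k - n0)/n0 = T - 1` (natural subtraction, `n0 < J + k`); `Lam ≥ 0`;
`4 - T + z (l+1) = (4 n0 - (J+k) + l + 1)/n0` (natural subtraction, `J + k < 2 n0`), so `Lmono` is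
`lamm` divided by `ld * n0`. -/
def StOkS : Prop := ∀ (Z : Dat) (k : ℕ), Z.Good k → (Z.sl k).Ok

/-- [RhC] the density on a cell.
PROOF. Let `v/n0 < s ≤ (v+1)/n0`, `v < Tn`. All comparisons of multiples of `1/n0` are comparisons of
integers: for an integer `w`: `w/n0 < s` iff `w ≤ v`, and `s ≤ w/n0` iff `v + 1 ≤ w`.
(a) `v < 2 n0 - Tn`: then `s ≤ 2 - T`, `rho = 1`, and `r v ≤ den`.
Otherwise `s > 2 - T` and the sum over `l < L` is used (`Finset.sum_eq_single l`).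
(b) `v = 2 n0 - Tn + l`, `l < L` (`v < n0`): inner condition of `l'` iff `2 n0 - Tn + l' ≤ v` and
`v + 1 ≤ 2 n0 - Tn + l' + 1`, that is `l' = l`; the outer condition of `l'` needs
`Tn - l' - 1 ≤ v < n0`, impossible as `l' + 1 ≤ Tn - n0`. So
`rho s = Lam l/(1 + Lam l) = la l/(ld + la l) ≥ r v/den` by `rin`.
(c) `n0 ≤ v < Tn`, `v = Tn - 1 - l`, `l < L`: the inner condition of `l'` needs
`v + 1 ≤ 2 n0 - Tn + l' + 1 ≤ n0`, impossible; outer iff `Tn - l' - 1 ≤ v` and `v + 1 ≤ Tn - l'`, that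
is `l' = l`. So `rho s = - (la l/ld) * (4 n0 - Tn + l + 1)/n0 / (2 - s)` with
`2 - s ≥ (2 n0 - Tn + l)/n0 > 0`, hence
`rho s ≥ - (la l/ld) (4 n0 - Tn + l + 1)/(2 n0 - Tn + l) ≥ r v/den` by `rout`. -/
def StRhC : Prop := ∀ (Z : Dat) (k : ℕ), Z.Good k → ∀ v < Z.J + k, ∀ s : ℝ,
  (v : ℝ) / Z.n0 < s → s ≤ ((v : ℝ) + 1) / Z.n0 → (Z.r v : ℝ) / Z.den ≤ (Z.sl k).rho s

/-- [JmE] the prime form as an integral over the other variables.
PROOF. `∑ j ∈ univ.erase m, t j = ∑ j, t (m.succAbove j)` (`Fin.sum_univ_succAbove` and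
`Finset.add_sum_erase`), `marg` by `h1`; so the integrand is `Ψ (fun j => t (m.succAbove j))` with
`Ψ s = rho (∑ s) * ((1/n0) * stp G s)^2`, apply `h2` and `integral_const_mul`. -/
def StJmE : Prop := StIdx → StMrg → StSpl → ∀ (Z : Dat), 0 < Z.n0 → ∀ (κ : ℕ) (m : Fin (κ + 1)),
  Jm (Z.sl (κ + 1)) (Z.F (κ + 1)) m = (1 / (Z.n0 : ℝ)) ^ 2 *
    ∫ s : Fin κ → ℝ, (Z.sl (κ + 1)).rho (∑ i, s i) *
      stp Z.n0 (fun n : Fin κ → ℕ => (Z.G n : ℝ)) s ^ 2

/-- [I2] the integral of the square of the test function.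
PROOF (h1 : StStp, h2 : StBdf, h3 : StISm with StCmb). `F ^ 2 = stp (fun n => (f n)^2)`
(unfold `stp`, `ite_pow`), which vanishes outside `I(J+1)` by `h2`; so by `h1` with `M = J + 1` the
integral is `n0^(-k) ∑ f n ^ 2 = n0^(-k) IS k` (cast). -/
def StI2 : Prop := StStp → StBdf → StISm → StCmb → ∀ (Z : Dat), 0 < Z.n0 → ∀ k : ℕ,
  ∫ t, Z.F k t ^ 2 = (1 / (Z.n0 : ℝ)) ^ k * (Z.IS k : ℝ)

/-- [NumD] the reduction of the numerics to an integer inequality.
PROOF (all statements above as hypotheses). Take `P = Z.sl (κ+1)`, `F = Z.F (κ+1)`. `P.Ok` by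
`StOkS`; `Tst` by `StTst` (`P.T = (J + (κ+1))/n0`, `push_cast`). `Crit`: `4 ∫ F^2 = 4 n0^(-(κ+1)) IS`
(`StI2`). For every `m`, by `StJmE` and `StLow` (with `M = J + 1`, the slab inequality from
`StSlb StEulF κ` and the formula `StIHF`, `rho` measurable and bounded by `StRhM`, the cell bound
`StRhC` for `v < J + 1 + κ`, and `G n = 0` for `∑ n ≥ J + 1` as then `W a (∑ n)` is an empty sum):
`Jm ≥ n0^(-2) n0^(-κ) (∑_n R κ (∑ n) G n ^ 2)/(den κ!) = n0^(-κ-2) JS κ/(den κ!)` (`StJSm`). So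
`∑_m Jm ≥ (κ+1) n0^(-κ-2) JS/(den κ!)`, and the claim is
`4 n0^(-(κ+1)) IS < (κ+1) n0^(-κ-2) JS/(den κ!)`, that is the hypothesis divided by
`n0^(κ+2) den κ!`. -/
def StNumD : Prop := StIdx → StCel → StStp → StChg → StIHr → StIH1 → StTPI → StIHF → StEulF →
  StSlb → StMrg → StSpl → StCmb → StISm → StJSm → StVar → StBdf → StTst → StLow → StRhM → StOkS →
  StRhC → StJmE → StI2 → ∀ (Z : Dat) (κ : ℕ), 1 ≤ κ → Z.Good (κ + 1) →
  4 * (Z.n0 : ℤ) * (Z.den : ℤ) * (κ.factorial : ℤ) * Z.IS (κ + 1) < ((κ : ℤ) + 1) * Z.JS κ →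
  NUMk (κ + 1)

end MPb51559.BG.D
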