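import Pool.Agent.Work.MP_b51559_nt.BG.D.Z49

set_option autoImplicit false
set_option maxRecDepth 100000
set_option exponentiation.threshold 20000

/-!
# Block BG, part D: the conditions on the certificate for `k = 49`
-/

namespace MPb51559.BG.D

open Finset Polynomial

/-- the Eulerian numbers by factorials -/
def eulf (u : ℕ) : ℤ := ∑ i ∈ range (u + 1),
  (-1) ^ i * ((Nat.factorial 49 / (Nat.factorial i * Nat.factorial (49 - i)) : ℕ) : ℤ) *
    ((u : ℤ) + 1 - i) ^ 48

theorem eulf_eq (u : ℕ) (hu : u < 48) : eulf u = eul 48 u := by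
  unfold eulf eul
  refine Finset.sum_congr rfl fun i hi => ?_
  rw [Finset.mem_range] at hi
  rw [Nat.choose_eq_factorial_div_factorial (show i ≤ 48 + 1 by omega)]

theorem E48_chk : ∀ u < 48, E48.getD u 0 = eulf u := by decide +kernel

theorem E48_len : E48.length = 48 := by decide +kernel

theorem Z49_R (N : ℕ) (hN : N < 1024) : RL49.getD N 0 = Z49.R 48 N := by
  rw [RL49, slide_getD _ _ _ _ hN, E48_len, Dat.R]
  refine Finset.sum_congr rfl fun u hu => ?_
  rw [Finset.mem_range] at hu
  rw [E48_chk u hu, eulf_eq u hu]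
  congr 1
  rw [rl49, getD_map' _ _ _ 0 0 (by rw [List.length_range]; omega)]
  congr 1
  rw [List.getD_eq_getElem _ _ (by rw [List.length_range]; omega), List.getElem_range]

theorem G49_lt : ∀ a < 2, G49 a < 4096 ^ (2 ^ 10) := by decide +kernel

theorem H49_lt : ∀ a < 2, H49 a < 8192 ^ (2 ^ 10) := by decide +kernel

theorem s49_lt : ∀ a < 2, ∀ b < 2, s1 (G49 a) (G49 b) ^ 49 < B49 := by decide +kernel

theorem s48_lt : ∀ a < 2, ∀ b < 2, s1 (G49 a) (G49 b) ^ 48 < B49 := by decide +kernel

theorem Z49_frm : Z49.Frm G49 H49 where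
  hJ := rfl
  hA := rfl
  hg := fun _ _ => rfl
  hH := fun _ _ => rfl
  bg := G49_lt
  bh := H49_lt
  bs := s49_lt

theorem chk_lamm : ∀ l < 81, la49 (l + 1) * (2888 + l + 2) ≤ la49 l * (2888 + l + 1) := by
  decide +kernel

theorem chk_core : ∀ v < 908, r49 v ≤ 4096 := by decide +kernel

theorem chk_in : ∀ l < 82, r49 (908 + l) * ((64 + la49 l : ℕ) : ℤ) ≤ ((4096 * la49 l : ℕ) : ℤ) := by
  decide +kernel

theorem chk_out : ∀ l < 82, r49 (1071 - l) * ((64 * (908 + l) : ℕ) : ℤ) ≤
    -((4096 * la49 l * (2888 + l + 1) : ℕ) : ℤ) := by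
  decide +kernel

theorem Z49_good : Z49.Good 49 where
  n0pos := by decide
  denpos := by decide
  ldpos := by decide
  hT1 := by decide
  hT2 := by decide
  lamm := by
    intro l hl
    have hl' : l < 81 := by
      have : l + 1 < 82 := hl
      omega
    exact chk_lamm l hl'
  rcore := fun v hv => chk_core v hv
  rin := fun l hl => chk_in l hl
  rout := fun l hl => chk_out l hl

end MPb51559.BG.D
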